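import Pool.Agent.H38.PZ.Core
import Pool.Agent.H38.PZ.Full
import Pool.Agent.H40.PZ.Zeta
import Pool.Agent.H53.PZ.Gamma

/-! The case `2 ^ (4 m) + b ≡ 1`. -/

namespace Pool.Agent.H38.PZ

theorem full1 (m b : ℕ) (hm : 0 < m)
    (hb : (2 : ℤ) ^ (padicValNat 2 (8 * m) + 2) ∣ 2 ^ (4 * m) + (b : ℤ) - 1) :
    S_full (8 * m) (2 ^ (4 * m)) b := by
  have hodd : Odd b := by
    obtain ⟨c, hc⟩ := hb
    obtain ⟨m', rfl⟩ : ∃ m', m = m' + 1 := ⟨m - 1, by omega⟩
    have h1 : (b : ℤ) = 2 * (2 ^ (padicValNat 2 (8 * (m' + 1)) + 1) * c - 2 ^ (4 * m' + 3)) + 1 := by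
      have e1 : (2 : ℤ) ^ (4 * (m' + 1)) = 2 * 2 ^ (4 * m' + 3) := by ring
      have e2 : (2 : ℤ) ^ (padicValNat 2 (8 * (m' + 1)) + 2) =
          2 * 2 ^ (padicValNat 2 (8 * (m' + 1)) + 1) := by ring
      rw [e1, e2] at hc
      linear_combination hc
    have h2 : Odd (b : ℤ) := ⟨_, h1⟩
    exact_mod_cast h2
  have hz := Pool.Agent.H40.PZ.zeta m b hm hb
  have hg := Pool.Agent.H53.PZ.gamma (8 * m) (4 * m) b (padicValNat 2 (8 * m) + 2) (by omega)
    (by omega) hodd (by omega) hz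
  exact Pool.Agent.H38.PZF.full_of_core
    (core_of_gamma (by positivity) hodd.pos (by positivity) hg)

/-- `16 x + 17 y = w z ^ 8` is partition regular over the positive integers. -/
theorem full_16_17 : S_full 8 16 17 := by
  have h := full1 1 17 one_pos (by
    have : padicValNat 2 (8 * 1) = 3 := by
      rw [show 8 * 1 = 2 ^ 3 by norm_num]
      exact padicValNat.prime_pow 3
    rw [this]
    norm_num)
  simpa using h

end Pool.Agent.H38.PZ
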