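import Mathlib

/-! A 2-adic colouring which excludes `2 ^ (4 m) x + b y = w z ^ (8 m)` for odd `b` with
`b ≢ 1` and `2 ^ (4 m) + b ≢ 1` modulo `2 ^ (v₂(8 m) + 2)`. -/

set_option autoImplicit false

namespace Pool.Agent.H38.PZ

lemma odd_pow_two_pow (z : ℤ) (hz : Odd z) (s : ℕ) : (2 : ℤ) ^ (s + 3) ∣ z ^ (2 ^ (s + 1)) - 1 := by
  induction s with
  | zero =>
    obtain ⟨k, rfl⟩ := hz
    rcases Int.even_or_odd k with ⟨j, rfl⟩ | ⟨j, rfl⟩
    · exact ⟨j * (2 * j + 1), by ring⟩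
    · exact ⟨(2 * j + 1) * (j + 1), by ring⟩
  | succ s ih =>
    have h1 : z ^ (2 ^ (s + 1 + 1)) - 1 = (z ^ (2 ^ (s + 1)) - 1) * (z ^ (2 ^ (s + 1)) + 1) := by
      rw [pow_succ 2 (s + 1), pow_mul]
      ring
    rw [h1, show s + 1 + 3 = (s + 3) + 1 by ring, pow_succ]
    refine mul_dvd_mul ih ?_
    have h2 : Odd (z ^ (2 ^ (s + 1))) := hz.pow
    exact (h2.add_odd odd_one).two_dvd

lemma odd_pow_sub_one {z : ℤ} (hz : Odd z) {n : ℕ} (hn : n ≠ 0) (h2 : 2 ∣ n) :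
    (2 : ℤ) ^ (padicValNat 2 n + 2) ∣ z ^ n - 1 := by
  have h3 : padicValNat 2 n ≠ 0 := by
    intro h
    have := (padicValNat_dvd_iff_le (p := 2) hn (n := 1)).1 (by simpa using h2)
    omega
  obtain ⟨s, hs⟩ := Nat.exists_eq_succ_of_ne_zero h3
  obtain ⟨o, ho⟩ := pow_padicValNat_dvd (p := 2) (n := n)
  rw [hs] at ho ⊢
  have h4 := odd_pow_two_pow z hz s
  have h5 : z ^ n - 1 = (z ^ (2 ^ (s + 1))) ^ o - 1 ^ o := by
    rw [← pow_mul, one_pow]
    congr 2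
  rw [h5]
  exact h4.trans (sub_dvd_pow_sub_pow _ _ _)

lemma two_pow_mul_odd {a b : ℕ} {p q : ℤ} (hp : Odd p) (hq : Odd q)
    (h : (2 : ℤ) ^ a * p = 2 ^ b * q) : a = b ∧ p = q := by
  have key : ∀ (a b : ℕ) (p q : ℤ), Odd p → Odd q → (2 : ℤ) ^ a * p = 2 ^ b * q → a ≤ b → a = b ∧ p = q := by
    intro a b p q hp hq h hab
    obtain ⟨c, rfl⟩ := Nat.exists_eq_add_of_le hab
    rw [pow_add, mul_assoc] at h
    have h1 := mul_left_cancel₀ (by positivity : (2 : ℤ) ^ a ≠ 0) h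
    rcases Nat.eq_zero_or_pos c with rfl | hc
    · simpa using h1
    · exfalso
      have h2 : (2 : ℤ) ∣ p := by
        rw [h1]
        exact dvd_mul_of_dvd_left (dvd_pow_self _ hc.ne') _
      exact (Int.not_even_iff_odd.2 hp) (even_iff_two_dvd.2 h2)
  rcases le_total a b with hab | hab
  · exact key a b p q hp hq h hab
  · obtain ⟨h1, h2⟩ := key b a q p hq hp h.symm hab
    exact ⟨h1.symm, h2.symm⟩

/-- the exponent `v₂(8 m) + 2` -/
def ee (m : ℕ) : ℕ := padicValNat 2 (8 * m) + 2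

lemma ee_le {m : ℕ} (hm : 0 < m) : ee m ≤ 12 * m := by
  unfold ee
  have h1 : 2 ^ padicValNat 2 (8 * m) ≤ 8 * m := Nat.le_of_dvd (by omega) pow_padicValNat_dvd
  have h2 : padicValNat 2 (8 * m) < 2 ^ padicValNat 2 (8 * m) := Nat.lt_two_pow_self
  omega

/-- the odd part -/
lemma oddpart {x : ℤ} (hx : x ≠ 0) : ∃ x' : ℤ, Odd x' ∧ x = 2 ^ (padicValInt 2 x) * x' := by
  obtain ⟨x', hx'⟩ := padicValInt_dvd (p := 2) x
  push_cast at hx'
  refine ⟨x', ?_, hx'⟩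
  by_contra hne
  rw [Int.not_odd_iff_even] at hne
  obtain ⟨c, hc⟩ := hne.two_dvd
  have h1 : ((2 : ℕ) : ℤ) ^ (padicValInt 2 x + 1) ∣ x := by
    refine ⟨c, ?_⟩
    conv_lhs => rw [hx', hc]
    push_cast
    ring
  rw [padicValInt_dvd_iff] at h1
  rcases h1 with h1 | h1
  · exact hx h1
  · omega

theorem not_reg {m : ℕ} (hm : 0 < m) {b : ℤ} (hb : Odd b)
    (h1 : ¬ (2 : ℤ) ^ ee m ∣ 2 ^ (4 * m) + b - 1) (h2 : ¬ (2 : ℤ) ^ ee m ∣ b - 1) :
    ∃ (r : ℕ) (χ : ℤ → Fin r), ∀ x y w z : ℤ, x ≠ 0 → y ≠ 0 → w ≠ 0 → z ≠ 0 →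
      χ x = χ z → χ y = χ z → χ w = χ z → 2 ^ (4 * m) * x + b * y ≠ w * z ^ (8 * m) := by
  classical
  have hm8 : NeZero (8 * m) := ⟨by omega⟩
  have hE8 : NeZero (2 ^ ee m) := ⟨by positivity⟩
  let K := ZMod (8 * m) × ZMod (2 ^ ee m)
  let φ : ℤ → K := fun x => ((padicValInt 2 x : ZMod (8 * m)),
    ((x / 2 ^ (padicValInt 2 x) : ℤ) : ZMod (2 ^ ee m)))
  have hφ : ∀ x y : ℤ, x ≠ 0 → y ≠ 0 → φ x = φ y →
      (8 * m : ℤ) ∣ (padicValInt 2 x : ℤ) - padicValInt 2 y := by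
    intro x y hx hy h
    have h3 : ((padicValInt 2 x : ℤ) : ZMod (8 * m)) = ((padicValInt 2 y : ℤ) : ZMod (8 * m)) := by
      exact_mod_cast congrArg Prod.fst h
    rw [ZMod.intCast_eq_intCast_iff_dvd_sub] at h3
    have h4 := dvd_neg.2 h3
    rw [neg_sub] at h4
    exact_mod_cast h4
  have hφ2 : ∀ x y : ℤ, φ x = φ y → ∀ x' y', x ≠ 0 → y ≠ 0 →
      x = 2 ^ (padicValInt 2 x) * x' → y = 2 ^ (padicValInt 2 y) * y' →
      (2 : ℤ) ^ ee m ∣ x' - y' := by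
    intro x y h x' y' hx hy hx' hy'
    have h3 : x / 2 ^ (padicValInt 2 x) = x' := by
      conv_lhs => enter [1]; rw [hx']
      exact Int.mul_ediv_cancel_left _ (by positivity)
    have h4 : y / 2 ^ (padicValInt 2 y) = y' := by
      conv_lhs => enter [1]; rw [hy']
      exact Int.mul_ediv_cancel_left _ (by positivity)
    have h5 : ((x / 2 ^ (padicValInt 2 x) : ℤ) : ZMod (2 ^ ee m)) =
        ((y / 2 ^ (padicValInt 2 y) : ℤ) : ZMod (2 ^ ee m)) := congrArg Prod.snd h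
    rw [h3, h4, ZMod.intCast_eq_intCast_iff_dvd_sub] at h5
    have h6 := dvd_neg.2 h5
    rw [neg_sub] at h6
    exact_mod_cast h6
  have : Fintype K := inferInstance
  let eqv := Fintype.equivFin K
  refine ⟨Fintype.card K, fun x => eqv (φ x), ?_⟩
  intro x y w z hx hy hw hz hxz hyz hwz heq
  have cx : φ x = φ z := eqv.injective hxz
  have cy : φ y = φ z := eqv.injective hyz
  have cw : φ w = φ z := eqv.injective hwz
  obtain ⟨x', ox, ex⟩ := oddpart hx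
  obtain ⟨y', oy, ey⟩ := oddpart hy
  obtain ⟨w', ow, ew⟩ := oddpart hw
  obtain ⟨z', oz, ez⟩ := oddpart hz
  have dxy := hφ x y hx hy (cx.trans cy.symm)
  have dxw := hφ x w hx hw (cx.trans cw.symm)
  have uxy := hφ2 x y (cx.trans cy.symm) x' y' hx hy ex ey
  have uxw := hφ2 x w (cx.trans cw.symm) x' w' hx hw ex ew
  generalize padicValInt 2 x = i at *
  generalize padicValInt 2 y = j at *
  generalize padicValInt 2 w = k at *
  generalize padicValInt 2 z = l at *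
  rw [ex, ey, ew, ez] at heq
  have hzz : (2 : ℤ) ^ ee m ∣ z' ^ (8 * m) - 1 :=
    odd_pow_sub_one oz (by omega) ⟨4 * m, by ring⟩
  have orhs : Odd (w' * z' ^ (8 * m)) := ow.mul oz.pow
  have hrhs : 2 ^ k * w' * (2 ^ l * z') ^ (8 * m) = 2 ^ (k + l * (8 * m)) * (w' * z' ^ (8 * m)) := by
    rw [mul_pow, ← pow_mul, pow_add]
    ring
  rw [hrhs] at heq
  obtain ⟨c, hc⟩ := dxy
  obtain ⟨c', hc'⟩ := dxw
  have hmZ : (0 : ℤ) < m := by exact_mod_cast hm
  rcases lt_trichotomy j (4 * m + i) with hlt | heq' | hgt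
  · obtain ⟨d, hd⟩ := Nat.exists_eq_add_of_lt hlt
    have h3 : (2 : ℤ) ^ j * (2 ^ (d + 1) * x' + b * y') =
        2 ^ (k + l * (8 * m)) * (w' * z' ^ (8 * m)) := by
      rw [← heq]
      have : (2 : ℤ) ^ (4 * m) * (2 ^ i * x') = 2 ^ (4 * m + i) * x' := by rw [pow_add]; ring
      rw [this, hd, show j + d + 1 = j + (d + 1) by ring, pow_add]
      ring
    have o3 : Odd (2 ^ (d + 1) * x' + b * y') := by
      refine Even.add_odd ?_ (hb.mul oy)
      rw [pow_succ]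
      exact ⟨2 ^ d * x', by ring⟩
    obtain ⟨-, h4⟩ := two_pow_mul_odd o3 orhs h3
    -- modulo 2 ^ E
    have h5 : (2 : ℤ) ^ ee m ∣ (2 ^ (d + 1) + b - 1) * x' := by
      have e1 : (2 ^ (d + 1) + b - 1) * x' = b * (x' - y') + w' * (z' ^ (8 * m) - 1) - (x' - w') := by
        linear_combination h4
      rw [e1]
      exact dvd_sub (dvd_add (dvd_mul_of_dvd_right uxy _) (dvd_mul_of_dvd_right hzz _)) uxw
    have hcop : IsCoprime ((2 : ℤ) ^ ee m) x' := by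
      apply IsCoprime.pow_left
      rw [Int.isCoprime_iff_gcd_eq_one, Int.gcd_comm]
      exact Int.isCoprime_iff_gcd_eq_one.1 (Int.isCoprime_iff_gcd_eq_one.2 (by
        obtain ⟨t, ht⟩ := ox
        rw [← Int.isCoprime_iff_gcd_eq_one]
        exact ⟨1, -t, by rw [ht]; ring⟩))
    have h6 : (2 : ℤ) ^ ee m ∣ 2 ^ (d + 1) + b - 1 := hcop.dvd_of_dvd_mul_right h5
    have hd' : (4 * m + i : ℤ) = j + d + 1 := by exact_mod_cast hd
    rcases lt_trichotomy c 0 with hc0 | hc0 | hc0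
    · have : (8 * m : ℤ) * c ≤ 8 * m * (-1) := mul_le_mul_of_nonneg_left (by omega) (by positivity)
      have : (0 : ℤ) ≤ d := by positivity
      linarith
    · rw [hc0] at hc
      have h7 : d + 1 = 4 * m := by
        have : (d : ℤ) + 1 = 4 * m := by linarith
        exact_mod_cast this
      rw [h7] at h6
      exact h1 h6
    · have : (8 * m : ℤ) * 1 ≤ 8 * m * c := mul_le_mul_of_nonneg_left (by omega) (by positivity)
      have h7 : 12 * m ≤ d + 1 := by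
        have : (12 : ℤ) * m ≤ d + 1 := by linarith
        exact_mod_cast this
      have h8 : (2 : ℤ) ^ ee m ∣ 2 ^ (d + 1) := pow_dvd_pow _ ((ee_le hm).trans h7)
      apply h2
      have h9 : b - 1 = (2 ^ (d + 1) + b - 1) - 2 ^ (d + 1) := by ring
      rw [h9]
      exact dvd_sub h6 h8
  · -- equal valuations
    have h3 : (j : ℤ) = 4 * m + i := by exact_mod_cast heq'
    have h4 : (8 * m : ℤ) * c = -(4 * m) := by linarith
    have h5 : (m : ℤ) * (2 * c + 1) = 0 := by linarith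
    rcases mul_eq_zero.1 h5 with h6 | h6
    · omega
    · omega
  · obtain ⟨d, hd⟩ := Nat.exists_eq_add_of_lt hgt
    have h3 : (2 : ℤ) ^ (4 * m + i) * (x' + 2 ^ (d + 1) * (b * y')) =
        2 ^ (k + l * (8 * m)) * (w' * z' ^ (8 * m)) := by
      rw [← heq, hd, show 4 * m + i + d + 1 = (4 * m + i) + (d + 1) by ring, pow_add _ (4 * m + i),
        pow_add _ (4 * m)]
      ring
    have o3 : Odd (x' + 2 ^ (d + 1) * (b * y')) := by
      refine Odd.add_even ox ?_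
      rw [pow_succ]
      exact ⟨2 ^ d * (b * y'), by ring⟩
    obtain ⟨h4, -⟩ := two_pow_mul_odd o3 orhs h3
    have h5 : (4 * m + i : ℤ) = k + l * (8 * m) := by exact_mod_cast h4
    have h6 : (m : ℤ) * (1 + 2 * c' - 2 * l) = 0 := by linarith
    rcases mul_eq_zero.1 h6 with h6 | h6
    · omega
    · omega

end Pool.Agent.H38.PZ
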