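import Pool.Agent.H38.PZ.Defs

/-! # The combinatorial reduction for `A x + b y = w z ^ n` (following `Pool.Agent.H38.PZG.Full`) -/

set_option autoImplicit false

namespace Pool.Agent.H38.PZG

open Filter
open Pool.Agent.H38.PZ

/-- a set of positive integers closed under multiplication -/
structure Sg (Q : ℤ → Prop) : Prop where
  one : Q 1
  mul : ∀ {a b : ℤ}, Q a → Q b → Q (a * b)
  pos : ∀ {a : ℤ}, Q a → 0 < a

/-- the core statement for the semigroup `Q` -/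
def CoreQ (Q : ℤ → Prop) (n A b : ℕ) : Prop := ∀ T : Set ℤ, (∀ x ∈ T, Q x) →
  (∃ F : Finset ℤ, (∀ f ∈ F, Q f) ∧ ∀ h, Q h → ∃ f ∈ F, f * h ∈ T) →
  ∃ X ∈ T, ∃ Y ∈ T, ∃ W ∈ T, ∃ ρ : ℤ, 0 < ρ ∧ (A : ℤ) * X + b * Y = W * ρ ^ n

variable {Q : ℤ → Prop}

theorem pos_pow (hQ : Sg Q) {a : ℤ} (ha : Q a) (n : ℕ) : Q (a ^ n) := by
  induction n with
  | zero => rw [pow_zero]; exact hQ.one
  | succ n ih => rw [pow_succ]; exact hQ.mul ih ha

section ultra
variable {α : Type*}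

theorem ulim (U : Ultrafilter α) {κ : Type*} [Finite κ] (φ : α → κ) : ∃ i, ∀ᶠ a in U, φ a = i := by
  by_contra hcon
  push Not at hcon
  have h1 : ∀ i, ∀ᶠ a in (U : Filter α), ¬ φ a = i := hcon
  have h2 : ∀ᶠ a in (U : Filter α), ∀ i, ¬ φ a = i := eventually_all.2 h1
  obtain ⟨a, ha⟩ := h2.exists
  exact ha (φ a) rfl

theorem ulim_finset (U : Ultrafilter α) {β : Type*} (F : Finset β) (P : β → α → Prop)
    (h : ∀ a, ∃ f ∈ F, P f a) : ∃ f ∈ F, ∀ᶠ a in U, P f a := by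
  by_contra hcon
  push Not at hcon
  have h1 : ∀ f ∈ F, ∀ᶠ a in (U : Filter α), ¬ P f a := hcon
  have h2 : ∀ᶠ a in (U : Filter α), ∀ f ∈ F, ¬ P f a := (eventually_all_finset F).2 h1
  obtain ⟨a, ha⟩ := h2.exists
  obtain ⟨f, hf, hP⟩ := h a
  exact ha f hf hP

end ultra

/-- the limit colouring -/
theorem limcol (hQ : Sg Q) {κ : Type} [Finite κ] (k : ℤ → κ) : ∃ (k' : ℤ → κ) (R : Finset κ), R.Nonempty ∧
    (∀ H : Finset ℤ, ∃ g, Q g ∧ ∀ h ∈ H, k (g * h) = k' h) ∧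
    (∀ i ∈ R, ∃ F : Finset ℤ, (∀ f ∈ F, Q f) ∧ ∀ h, Q h → ∃ f ∈ F, k' (f * h) = i) ∧
    (∀ H : Finset ℤ, (∀ h ∈ H, Q h) → ∃ g, Q g ∧ ∀ h ∈ H, k (g * h) ∈ R) := by
  classical
  have : Fintype κ := Fintype.ofFinite κ
  let good : Finset κ → Prop := fun R => ∀ H : Finset ℤ, (∀ h ∈ H, Q h) →
    ∃ g, Q g ∧ ∀ h ∈ H, k (g * h) ∈ R
  have huniv : good Finset.univ := fun H _ => ⟨1, hQ.one, fun h _ => Finset.mem_univ _⟩
  obtain ⟨R, hR, hmin⟩ := (wellFounded_lt (α := Finset κ)).has_min {R | good R} ⟨_, huniv⟩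
  have hRne : R.Nonempty := by
    obtain ⟨g, -, hg⟩ := hR {1} (by simp [hQ.one])
    exact ⟨_, hg 1 (Finset.mem_singleton_self _)⟩
  have hgood : ∀ H : Finset ℤ, ∃ g, Q g ∧ ∀ h ∈ H, Q h → k (g * h) ∈ R := by
    intro H
    obtain ⟨g, hg, hgH⟩ := hR (H.filter Q) (fun h hh => (Finset.mem_filter.1 hh).2)
    exact ⟨g, hg, fun h hh hp => hgH h (Finset.mem_filter.2 ⟨hh, hp⟩)⟩
  choose G hG1 hG2 using hgood
  let V : Ultrafilter (Finset ℤ) := Ultrafilter.of atTop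
  have hV : ∀ H : Finset ℤ, ∀ᶠ H' in (V : Filter (Finset ℤ)), H ⊆ H' := fun H =>
    Ultrafilter.of_le _ (eventually_ge_atTop H)
  choose k' hk' using fun h : ℤ => ulim V (fun H => k (G H * h))
  have hk'F : ∀ H : Finset ℤ, ∀ᶠ H' in (V : Filter (Finset ℤ)), ∀ h ∈ H, k (G H' * h) = k' h := fun H =>
    (eventually_all_finset H).2 (fun h _ => hk' h)
  refine ⟨k', R, hRne, ?_, ?_, hR⟩
  · intro H
    obtain ⟨H', hH'⟩ := (hk'F H).exists
    exact ⟨G H', hG1 H', hH'⟩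
  · intro i hi
    have hng : ¬ good (R.erase i) := fun h => hmin _ h (Finset.erase_ssubset hi)
    have hng' : ∃ F : Finset ℤ, (∀ f ∈ F, Q f) ∧ ∀ g, Q g → ∃ f ∈ F, k (g * f) ∉ R.erase i := by
      by_contra hcon
      apply hng
      intro H hH
      by_contra hcon2
      apply hcon
      refine ⟨H, hH, fun g hg => ?_⟩
      by_contra hcon3
      apply hcon2
      refine ⟨g, hg, fun h hh => ?_⟩
      by_contra hcon4
      exact hcon3 ⟨h, hh, hcon4⟩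
    obtain ⟨F, hF, hF2⟩ := hng'
    refine ⟨F, hF, fun h hh => ?_⟩
    obtain ⟨H', hH1, hH2⟩ := ((hV (F.image (· * h))).and (hk'F (F.image (· * h)))).exists
    obtain ⟨f, hf, hf2⟩ := hF2 (G H' * h) (hQ.mul (hG1 H') hh)
    have hmem : f * h ∈ F.image (· * h) := Finset.mem_image_of_mem (· * h) hf
    have h1 : k (G H' * (f * h)) ∈ R := hG2 H' (f * h) (hH1 hmem) (hQ.mul (hF f hf) hh)
    have h2 : G H' * h * f = G H' * (f * h) := by ring
    rw [h2] at hf2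
    have h3 : k (G H' * (f * h)) = i := by
      by_contra hne
      exact hf2 (Finset.mem_erase.2 ⟨hne, h1⟩)
    exact ⟨f, hf, by rw [← hH2 _ hmem, h3]⟩

/-- STEP B -/
theorem free_of_core (hQ : Sg Q) {n A b : ℕ} (hcore : CoreQ Q n A b) (κ : Type) [Finite κ] (c : ℤ → κ) :
    ∃ X Y W ρ : ℤ, Q X ∧ Q Y ∧ Q W ∧ 0 < ρ ∧ c X = c Y ∧ c X = c W ∧
      (A : ℤ) * X + b * Y = W * ρ ^ n := by
  obtain ⟨k', R, ⟨i, hi⟩, ha, hb, -⟩ := limcol hQ c
  obtain ⟨F, hF, hF2⟩ := hb i hi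
  obtain ⟨X, hX, Y, hY, W, hW, ρ, hρ, hXY⟩ := hcore {h | Q h ∧ k' h = i}
    (fun x hx => hx.1) ⟨F, hF, fun h hh => by
      obtain ⟨f, hf, hf2⟩ := hF2 h hh
      exact ⟨f, hf, hQ.mul (hF f hf) hh, hf2⟩⟩
  classical
  obtain ⟨g, hg, hgH⟩ := ha {X, Y, W}
  have h1 := hgH X (by simp)
  have h2 := hgH Y (by simp)
  have h3 := hgH W (by simp)
  refine ⟨g * X, g * Y, g * W, ρ, hQ.mul hg hX.1, hQ.mul hg hY.1, hQ.mul hg hW.1, hρ, ?_, ?_, ?_⟩
  · rw [h1, h2, hX.2, hY.2]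
  · rw [h1, h3, hX.2, hW.2]
  · linear_combination g * hXY

/-- a stream with all finite products in a good set -/
theorem exists_stream (hQ : Sg Q) {κ : Type} (e : ℤ → κ) (R : Finset κ)
    (h : ∀ H : Finset ℤ, (∀ h ∈ H, Q h) → ∃ g, Q g ∧ ∀ h ∈ H, e (g * h) ∈ R) :
    ∃ a : Stream' ℤ, ∀ m ∈ Hindman.FP a, Q m ∧ e m ∈ R := by
  classical
  have h' : ∀ H : Finset ℤ, ∃ g, (∀ h ∈ H, Q h) → Q g ∧ ∀ h ∈ H, e (g * h) ∈ R := by
    intro H
    by_cases hH : ∀ h ∈ H, Q h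
    · obtain ⟨g, hg⟩ := h H hH
      exact ⟨g, fun _ => hg⟩
    · exact ⟨1, fun h => absurd h hH⟩
  choose pick hpick using h'
  let Hs : ℕ → Finset ℤ := fun n => Nat.rec {1} (fun _ H => H ∪ H.image (pick H * ·)) n
  have hHs0 : Hs 0 = {1} := rfl
  have hHsS : ∀ n, Hs (n + 1) = Hs n ∪ (Hs n).image (pick (Hs n) * ·) := fun n => rfl
  have hpos : ∀ n, ∀ x ∈ Hs n, Q x := by
    intro n
    induction n with
    | zero =>
      intro x hx
      rw [hHs0, Finset.mem_singleton] at hx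
      rw [hx]
      exact hQ.one
    | succ n ih =>
      intro x hx
      rw [hHsS, Finset.mem_union, Finset.mem_image] at hx
      rcases hx with hx | ⟨y, hy, rfl⟩
      · exact ih x hx
      · exact hQ.mul (hpick _ ih).1 (ih y hy)
  let a : Stream' ℤ := fun n => pick (Hs n)
  have key : ∀ (s : Stream' ℤ) (m : ℤ), m ∈ Hindman.FP s → ∀ n, s = a.drop n →
      ∀ x ∈ Hs n, Q (x * m) ∧ e (x * m) ∈ R := by
    intro s m hm
    induction hm with
    | head' s =>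
      intro n hs x hx
      have h1 : s.head = pick (Hs n) := by
        rw [hs]
        simp [Stream'.head, Stream'.drop, a, Stream'.get]
      rw [h1, mul_comm]
      exact ⟨hQ.mul (hpick _ (hpos n)).1 (hpos n x hx), (hpick _ (hpos n)).2 x hx⟩
    | tail' s m _ ih =>
      intro n hs x hx
      refine ih (n + 1) ?_ x ?_
      · rw [hs]
        exact Stream'.tail_drop'
      · rw [hHsS]
        exact Finset.mem_union_left _ hx
    | cons' s m _ ih =>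
      intro n hs x hx
      have h1 : s.head = pick (Hs n) := by
        rw [hs]
        simp [Stream'.head, Stream'.drop, a, Stream'.get]
      rw [h1]
      have h2 := ih (n + 1) (by
        rw [hs]
        exact Stream'.tail_drop') (pick (Hs n) * x) (by
          rw [hHsS]
          exact Finset.mem_union_right _ (Finset.mem_image_of_mem _ hx))
      have h3 : x * (pick (Hs n) * m) = pick (Hs n) * x * m := by ring
      rw [h3]
      exact h2
  refine ⟨a, fun m hm => ?_⟩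
  have h1 := key a m hm 0 (by rfl) 1 (by rw [hHs0]; exact Finset.mem_singleton_self _)
  rwa [one_mul] at h1

theorem pos_prod (hQ : Sg Q) {b : Stream' ℤ} (hb : ∀ m ∈ Hindman.FP b, Q m) (s : Finset ℕ) :
    Q (∏ j ∈ s, b.get j) := by
  classical
  rcases s.eq_empty_or_nonempty with rfl | h
  · rw [Finset.prod_empty]
    exact hQ.one
  · exact hb _ (Hindman.FP.finsetProd b s h)

/-- STEP C -/
theorem full_of_core (hQ : Sg Q) {n A b : ℕ} (hcore : CoreQ Q n A b) : S_full n A b := by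
  classical
  intro κ _ c
  -- the universal system of solutions
  have h1 : ∀ SS : Finset (Set ℤ), ∃ X Y W ρ : ℤ, Q X ∧ Q Y ∧ Q W ∧ 0 < ρ ∧
      (∀ A ∈ SS, (X ∈ A ↔ Y ∈ A)) ∧ (∀ A ∈ SS, (X ∈ A ↔ W ∈ A)) ∧
      (A : ℤ) * X + b * Y = W * ρ ^ n := by
    intro SS
    obtain ⟨X, Y, W, ρ, hX, hY, hW, hρ, hXY, hXW, heq⟩ :=
      free_of_core hQ hcore (SS → Prop) (fun x A => x ∈ A.1)
    refine ⟨X, Y, W, ρ, hX, hY, hW, hρ, fun A hA => ?_, fun A hA => ?_, heq⟩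
    · exact iff_of_eq (congrFun hXY ⟨A, hA⟩)
    · exact iff_of_eq (congrFun hXW ⟨A, hA⟩)
  choose X Y W ρ hX hY hW hρ hXY hXW heq using h1
  let U : Ultrafilter (Finset (Set ℤ)) := Ultrafilter.of atTop
  have hU : ∀ A : Set ℤ, ∀ᶠ SS in (U : Filter (Finset (Set ℤ))), A ∈ SS := by
    intro A
    have h3 : ∀ᶠ SS in (atTop : Filter (Finset (Set ℤ))), ({A} : Finset (Set ℤ)) ≤ SS :=
      eventually_ge_atTop _
    have h4 : ∀ᶠ SS in (U : Filter (Finset (Set ℤ))), ({A} : Finset (Set ℤ)) ≤ SS :=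
      Ultrafilter.of_le _ h3
    exact h4.mono fun SS h => h (Finset.mem_singleton_self A)
  choose e he using fun g : ℤ => ulim U (fun SS => c (g * ρ SS))
  obtain ⟨k', R, -, ha, hb, hc⟩ := limcol hQ e
  obtain ⟨a, haFP⟩ := exists_stream hQ e R hc
  obtain ⟨C, hC, B, hbC⟩ := Hindman.FP_partition_regular a
    ((fun i : κ => {x : ℤ | Q x ∧ e x = i}) '' (R : Set κ)) (R.finite_toSet.image _) (by
      intro m hm
      obtain ⟨h1, h2⟩ := haFP m hm
      exact ⟨_, ⟨e m, h2, rfl⟩, h1, rfl⟩)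
  obtain ⟨i, hi, rfl⟩ := hC
  have hbP : ∀ m ∈ Hindman.FP B, Q m := fun m hm => (hbC hm).1
  have hbe : ∀ m ∈ Hindman.FP B, e m = i := fun m hm => (hbC hm).2
  obtain ⟨F, hF, hF2⟩ := hb i hi
  let v : ℕ → ℤ := fun l => ∏ j ∈ Finset.range l, B.get j
  have hv : ∀ l, Q (v l) := fun l => pos_prod hQ hbP _
  have h2 : ∀ l, ∃ f ∈ F, ∀ᶠ SS in (U : Filter (Finset (Set ℤ))), k' (f * (v l ^ n * X SS)) = i := by
    intro l
    exact ulim_finset U F (fun f SS => k' (f * (v l ^ n * X SS)) = i)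
      (fun SS => hF2 _ (hQ.mul (pos_pow hQ (hv l) n) (hX SS)))
  choose f hfF hfU using h2
  -- pigeonhole
  obtain ⟨l, l', hll, hff⟩ : ∃ l l' : ℕ, l < l' ∧ f l = f l' := by
    obtain ⟨l, l', hne, hfl⟩ := Finite.exists_ne_map_eq_of_infinite (fun l : ℕ => (⟨f l, hfF l⟩ : F))
    have h3 : f l = f l' := congrArg Subtype.val hfl
    rcases lt_or_gt_of_ne hne with h | h
    · exact ⟨l, l', h, h3⟩
    · exact ⟨l', l, h, h3.symm⟩
  let r : ℤ := ∏ j ∈ Finset.Ico l l', B.get j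
  have hrFP : r ∈ Hindman.FP B := Hindman.FP.finsetProd B _ (Finset.nonempty_Ico.2 hll)
  have hvr : v l' = v l * r := by
    have := Finset.prod_range_mul_prod_Ico (fun j => B.get j) hll.le
    exact this.symm
  have hre : ∀ᶠ SS in (U : Filter (Finset (Set ℤ))), c (r * ρ SS) = i := by
    have h3 := he r
    rw [hbe r hrFP] at h3
    exact h3
  let T1 : Set ℤ := {x | k' (f l * (v l ^ n * x)) = i}
  let T2 : Set ℤ := {x | k' (f l * (v l' ^ n * x)) = i}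
  have hfU' := hfU l'
  rw [← hff] at hfU'
  obtain ⟨SS, hS1, hS2, hS3, hS4, hS5⟩ := ((hU T1).and ((hU T2).and ((hfU l).and (hfU'.and hre)))).exists
  have hWT : W SS ∈ T1 := (hXW SS T1 hS1).1 hS3
  have hYT : Y SS ∈ T2 := (hXY SS T2 hS2).1 hS4
  have hXT : X SS ∈ T2 := hS4
  set w : ℤ := f l * (v l ^ n * W SS) with hw
  set y : ℤ := f l * (v l' ^ n * Y SS) with hy
  set x : ℤ := f l * (v l' ^ n * X SS) with hx
  have hwk : k' w = i := hWT
  have hyk : k' y = i := hYT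
  have hxk : k' x = i := hXT
  have hwP : Q w := hQ.mul (hF _ (hfF l)) (hQ.mul (pos_pow hQ (hv l) n) (hW SS))
  have hyP : Q y := hQ.mul (hF _ (hfF l)) (hQ.mul (pos_pow hQ (hv l') n) (hY SS))
  have hxP : Q x := hQ.mul (hF _ (hfF l)) (hQ.mul (pos_pow hQ (hv l') n) (hX SS))
  have hrP : Q r := hbP r hrFP
  obtain ⟨z, hz⟩ : ∃ z : ℤ, z = r * ρ SS := ⟨_, rfl⟩
  have hzP : 0 < z := by
    rw [hz]
    exact mul_pos (hQ.pos hrP) (hρ SS)
  have heqn : (A : ℤ) * x + b * y = w * z ^ n := by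
    have h3 := heq SS
    rw [hz, hx, hw, hy, hvr, mul_pow, mul_pow]
    linear_combination (f l * (v l ^ n * r ^ n)) * h3
  -- colours
  obtain ⟨g, hg, hgH⟩ := ha {w, x, y}
  have hgw : e (g * w) = i := (hgH w (by simp)).trans hwk
  have hgx : e (g * x) = i := (hgH x (by simp)).trans hxk
  have hgy : e (g * y) = i := (hgH y (by simp)).trans hyk
  obtain ⟨SS', hS6, hS7, hS8⟩ := ((he (g * w)).and ((he (g * x)).and (he (g * y)))).exists
  rw [hgw] at hS6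
  rw [hgx] at hS7
  rw [hgy] at hS8
  obtain ⟨lam, hlam⟩ : ∃ lam : ℤ, lam = g * ρ SS' := ⟨_, rfl⟩
  have hlamP : 0 < lam := by
    rw [hlam]
    exact mul_pos (hQ.pos hg) (hρ SS')
  have e1 : ∀ t : ℤ, lam * t = (g * t) * ρ SS' := fun t => by rw [hlam]; ring
  refine ⟨lam * w, lam * x, lam * y, z, mul_pos hlamP (hQ.pos hwP), mul_pos hlamP (hQ.pos hxP),
    mul_pos hlamP (hQ.pos hyP), hzP, ?_, ?_, ?_, ?_⟩
  · rw [e1, e1, hS6, hS7]
  · rw [e1, e1, hS6, hS8]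
  · rw [e1, hS6, hz, hS5]
  · linear_combination lam * heqn

end Pool.Agent.H38.PZG
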