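import Pool.Agent.H38.PZ.Core2
import Pool.Agent.H38.PZ.FullQ

/-! The reduction of `2 ^ a x + b y = w z ^ n` (with `b ≡ 1 (mod J)`) to the core with two sets. -/

open Finset

namespace Pool.Agent.H38.PZ

/-- indexed version of `good_pos` -/
lemma good_pos2 {ι : Type*} {b J : ℕ} (hb : 0 < b) (hJ : 0 < J) {I : Finset ι} {V : ι → Set ℤ}
    {u : ι → ℤ} (hu : ∀ i ∈ I, P1 J (u i)) (h : ∀ h, P1 J h → ∃ i ∈ I, u i * h ∈ V i) :
    ∃ i ∈ I, good b J (V i) (1 / (I.card : ℝ)) ∧ (0 : ℝ) < 1 / (I.card : ℝ) := by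
  have hne : I.Nonempty := by
    obtain ⟨f, hf, _⟩ := h 1 ⟨by norm_num, by simp⟩
    exact ⟨f, hf⟩
  have hk : (0 : ℝ) < I.card := by exact_mod_cast hne.card_pos
  have hbJ : 0 < b * J := Nat.mul_pos hb hJ
  have key : ∀ S : ℕ, 0 < S → ∃ i ∈ I, 1 / (I.card : ℝ) ≤
      av S (fun s => ind (V i) (u i * (10 * S * (b * J) + 1) + u i * (b * J) * s)) := by
    intro S hS
    refine exists_le_of_sum_le hne ?_
    rw [sum_const, nsmul_eq_mul, mul_one_div_cancel hk.ne', ← av_sum]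
    refine le_av_of_le hS fun s hs => ?_
    rw [mem_Bx] at hs
    have hp : P1 J ((10 * S * (b * J) + 1) + (b * J) * s) := by
      constructor
      · have h1 : 0 ≤ ((b : ℤ) * J) * s := mul_nonneg (by positivity) hs.1
        have h2 : (0 : ℤ) ≤ 10 * S * (b * J) := by positivity
        linarith
      · refine ⟨(10 * S * b + b * s), ?_⟩
        ring
    obtain ⟨i, hi, hT⟩ := h _ hp
    have : ind (V i) (u i * (10 * S * (b * J) + 1) + u i * (b * J) * s) = 1 := by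
      unfold ind
      rw [if_pos]
      convert hT using 1
      ring
    rw [← this]
    exact single_le_sum
      (f := fun i => ind (V i) (u i * (10 * S * (b * J) + 1) + u i * (b * J) * s))
      (fun _ _ => (ind_bd _ _).1) hi
  have : ∃ i ∈ I, ∀ S₀ : ℕ, ∃ S ≥ S₀, 1 / (I.card : ℝ) ≤
      av S (fun s => ind (V i) (u i * (10 * S * (b * J) + 1) + u i * (b * J) * s)) := by
    by_contra hcon
    push Not at hcon
    choose! S₀ hS₀ using hcon
    obtain ⟨i, hi, hi2⟩ := key (I.sup S₀ + 1) (by omega)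
    have := hS₀ i hi (I.sup S₀ + 1) (by have := le_sup (f := S₀) hi; omega)
    exact absurd hi2 (not_le.mpr this)
  obtain ⟨i, hi, hS⟩ := this
  obtain ⟨hfp, hfJ⟩ := hu i hi
  refine ⟨i, hi, ?_, by positivity⟩
  obtain ⟨m, hm'⟩ := Int.eq_ofNat_of_zero_le hfp.le
  rw [hm'] at hfp hfJ hS
  have hm : 0 < m := by exact_mod_cast hfp
  refine ⟨m * (b * J), Nat.mul_pos hm hbJ, Dvd.intro_left _ rfl, 10 * (m * (b * J)) + m,
    fun S₀ => ?_⟩
  obtain ⟨S, hSS, h2⟩ := hS (S₀ + 1)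
  have hS1 : (1 : ℝ) ≤ S := by
    have : 1 ≤ S := by omega
    exact_mod_cast this
  have hmR : (0 : ℝ) < m := by exact_mod_cast hm
  refine ⟨S, by omega, m * (10 * S * (b * J) + 1), ⟨?_, ?_, ?_⟩, ?_⟩
  · push_cast
    nlinarith
  · push_cast
    nlinarith
  · obtain ⟨c, hc⟩ := hfJ
    refine ⟨c + m * (10 * S * b), ?_⟩
    linear_combination hc
  · refine h2.trans_eq (av_congr fun s _ => ?_)
    push_cast
    rfl

/-- the semigroup of the integers `2 ^ (n j) u` with `u > 0`, `u ≡ 1 (mod J)` -/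
def PS (n J : ℕ) (x : ℤ) : Prop := ∃ (j : ℕ) (u : ℤ), P1 J u ∧ x = 2 ^ (n * j) * u

lemma sg_PS (n J : ℕ) : Pool.Agent.H38.PZG.Sg (PS n J) where
  one := ⟨0, 1, ⟨one_pos, by simp⟩, by simp⟩
  mul := by
    rintro a b ⟨j, u, ⟨hu1, hu2⟩, rfl⟩ ⟨j', u', ⟨hu1', hu2'⟩, rfl⟩
    refine ⟨j + j', u * u', ⟨mul_pos hu1 hu1', ?_⟩, ?_⟩
    · have h : u * u' - 1 = u * (u' - 1) + (u - 1) := by ring
      rw [h]
      exact dvd_add (dvd_mul_of_dvd_right hu2' _) hu2
    · rw [mul_add, pow_add]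
      ring
  pos := by
    rintro a ⟨j, u, ⟨hu1, hu2⟩, rfl⟩
    positivity

theorem coreQ {n a0 b J : ℕ} (hn : 0 < n) (ha0 : 0 < a0) (hb : 0 < b) (hJ : 0 < J)
    (hz : ∀ k, 0 < k → S_zeta n (2 ^ (a0 + n * k)) b J) (HG : S_gamma2 n b J) :
    Pool.Agent.H38.PZG.CoreQ (PS n J) n (2 ^ a0) b := by
  classical
  rintro T hT ⟨F, hF, hFT⟩
  choose! l u hu hfu using hF
  set L0 : ℕ := F.sup l with hL0
  have hl : ∀ f ∈ F, l f ≤ L0 := fun f hf => le_sup hf
  set G : ℕ := L0 + 1 with hG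
  set Tj : ℕ → Set ℤ := fun j => {x | 2 ^ (n * j) * x ∈ T} with hTj
  have key1 : ∀ x, P1 J x → ∀ c : ℕ, ∃ f ∈ F, u f * x ∈ Tj (c + l f) := by
    intro x hx c
    obtain ⟨f, hf, h1⟩ := hFT (2 ^ (n * c) * x) ⟨c, x, hx, rfl⟩
    refine ⟨f, hf, ?_⟩
    rw [hTj]
    simp only [Set.mem_setOf_eq]
    have h2 : (2 : ℤ) ^ (n * (c + l f)) * (u f * x) = f * (2 ^ (n * c) * x) := by
      conv_rhs => rw [hfu f hf]
      rw [mul_add, pow_add]
      ring
    rw [h2]
    exact h1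
  -- the pairs of levels
  set I : Finset (ℤ × ℕ × ℕ) := (F ×ˢ (range (F.card + 1) ×ˢ range (F.card + 1))).filter
    fun i => i.2.1 < i.2.2 with hI
  set V : ℤ × ℕ × ℕ → Set ℤ := fun i => Tj (i.2.1 * G + l i.1) ∩ Tj (i.2.2 * G + l i.1) with hV
  have key2 : ∀ x, P1 J x → ∃ i ∈ I, u i.1 * x ∈ V i := by
    intro x hx
    choose g hgF hgT using fun k : ℕ => key1 x hx (k * G)
    have hmaps : ∀ k ∈ range (F.card + 1), g k ∈ F := fun k _ => hgF k
    obtain ⟨k, hk, k', hk', hne, heq⟩ := exists_ne_map_eq_of_card_lt_of_maps_to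
      (s := range (F.card + 1)) (t := F) (by simp) hmaps
    rcases lt_or_gt_of_ne hne with h | h
    · refine ⟨(g k, k, k'), ?_, hgT k, ?_⟩
      · rw [hI, mem_filter, mem_product, mem_product]
        exact ⟨⟨hgF k, hk, hk'⟩, h⟩
      · have := hgT k'
        rw [← heq] at this
        exact this
    · refine ⟨(g k, k', k), ?_, ?_, hgT k⟩
      · rw [hI, mem_filter, mem_product, mem_product]
        exact ⟨⟨hgF k, hk', hk⟩, h⟩
      · have := hgT k'
        rw [← heq] at this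
        exact this
  obtain ⟨i, hi, hgood, hpos⟩ := good_pos2 (V := V) (u := fun i => u i.1) hb hJ
    (fun i hi => hu _ (by
      rw [hI, mem_filter, mem_product] at hi
      exact hi.1.1)) key2
  rw [hI, mem_filter, mem_product, mem_product] at hi
  obtain ⟨⟨hiF, -, -⟩, hlt⟩ := hi
  obtain ⟨f₀, k, k'⟩ := i
  simp only at hiF hlt
  set j : ℕ := k * G + l f₀ with hj
  set j' : ℕ := k' * G + l f₀ with hj'
  have hjj : j + L0 < j' := by
    have : (k + 1) * G ≤ k' * G := Nat.mul_le_mul_right _ hlt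
    have h2 : (k + 1) * G = k * G + G := by ring
    omega
  have hll : ∀ f ∈ F, j + l f < j' := fun f hf => by
    have := hl f hf
    omega
  set F2 : Finset (ℤ × ℕ) := F.image fun f => (u f, a0 + n * (j' - (j + l f))) with hF2
  obtain ⟨p, hp, X, hX, W, hW, Y, hY, Z, hZ, heq⟩ := core2 (n := n) (b := b) (J := J) hb HG
    (V := V (f₀, k, k')) (T := fun p => Tj (j' - (p.2 - a0) / n)) (F := F2) (by
      intro p hp
      rw [hF2, mem_image] at hp
      obtain ⟨f, hf, rfl⟩ := hp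
      exact ⟨hu f hf, by simp only; omega, hz _ (by have := hll f hf; omega)⟩) (by
      intro h hh
      obtain ⟨f, hf, h1⟩ := key1 h hh j
      refine ⟨(u f, a0 + n * (j' - (j + l f))), mem_image.2 ⟨f, hf, rfl⟩, ?_⟩
      simp only
      rw [Nat.add_sub_cancel_left, Nat.mul_div_cancel_left _ hn,
        Nat.sub_sub_self (hll f hf).le]
      exact h1) hpos hgood
  rw [hF2, mem_image] at hp
  obtain ⟨f, hf, rfl⟩ := hp
  simp only at hY heq
  rw [Nat.add_sub_cancel_left, Nat.mul_div_cancel_left _ hn, Nat.sub_sub_self (hll f hf).le] at hY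
  refine ⟨2 ^ (n * j') * X, hX.2, 2 ^ (n * (j + l f)) * Y, hY, 2 ^ (n * j) * W, hW.1,
    2 ^ (l f) * Z, by positivity, ?_⟩
  have h1 : (2 : ℤ) ^ (n * j') = 2 ^ (n * (j + l f)) * 2 ^ (n * (j' - (j + l f))) := by
    rw [← pow_add, ← mul_add, Nat.add_sub_cancel' (hll f hf).le]
  have h2 : (2 : ℤ) ^ (n * (j + l f)) = 2 ^ (n * j) * 2 ^ (n * l f) := by
    rw [← pow_add, ← mul_add]
  have h3 : ((2 : ℤ) ^ (l f) * Z) ^ n = 2 ^ (n * l f) * Z ^ n := by
    rw [mul_pow, ← pow_mul, mul_comm (l f) n]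
  rw [h3]
  rw [pow_add] at heq
  push_cast
  have h4 : (2 : ℤ) ^ a0 * (2 ^ (n * j') * X) + b * (2 ^ (n * (j + l f)) * Y) =
      2 ^ (n * (j + l f)) * (2 ^ a0 * 2 ^ (n * (j' - (j + l f))) * X + b * Y) := by
    rw [h1]
    ring
  rw [h4, heq, h2]
  ring

/-- partition regularity in the second case -/
theorem full2_of_gamma2 {n a0 b J : ℕ} (hn : 0 < n) (ha0 : 0 < a0) (hb : 0 < b) (hJ : 0 < J)
    (hz : ∀ k, 0 < k → S_zeta n (2 ^ (a0 + n * k)) b J) (HG : S_gamma2 n b J) :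
    S_full n (2 ^ a0) b :=
  Pool.Agent.H38.PZG.full_of_core (sg_PS n J) (coreQ hn ha0 hb hJ hz HG)

end Pool.Agent.H38.PZ
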