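import Pool.Agent.H38.PZ.Defs

/-! The indexed form of the lower bound `S_gamma`. -/

open Finset

namespace Pool.Agent.H38.PZ

/-- The lower bound for the number of points `(λ W - 2 ^ a X) / b` in `T (f, a)`, where the pair
`(f, a)` is one of finitely many pairs. -/
def S_gamma2 (n b J : ℕ) : Prop := ∀ F : Finset (ℤ × ℕ),
  (∀ p ∈ F, P1 J p.1 ∧ 0 < p.2 ∧ S_zeta n (2 ^ p.2) b J) → ∃ γ : ℝ, 0 < γ ∧
  ∀ q : ℕ, 0 < q → b * J ∣ q → ∀ (A' : ℝ) (N : ℕ), ∃ Z : ℤ × ℕ → ℕ → ℤ,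
    (∀ p ∈ F, ∀ v < N, 0 < Z p v) ∧
    (∀ p ∈ F, ∀ v < N, (b : ℤ) ∣ Z p v ^ n - 2 ^ p.2) ∧
    (∀ p ∈ F, ∀ v < N, ∀ v' < N, (q : ℤ) ∣ Z p v ^ n - Z p v' ^ n) ∧
    (∀ p ∈ F, ∀ v < N, ∀ v' < N, v ≠ v' → Z p v ^ n ≠ Z p v' ^ n) ∧
    ∃ S₀ : ℕ, ∀ S ≥ S₀, ∀ y : ℤ, 10 * (S : ℝ) * q ≤ y → (y : ℝ) ≤ A' * S → (J : ℤ) ∣ y - 1 →
      ∀ T : ℤ × ℕ → Set ℤ, (∀ h, P1 J h → ∃ p ∈ F, p.1 * h ∈ T p) →
        ∃ p ∈ F, ∀ v < N, γ ≤ E2 S (fun s t =>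
          ind (T p) (((Z p v ^ n - 2 ^ p.2) * y + q * (Z p v ^ n * s - 2 ^ p.2 * t)) / b))

/-- the first version follows -/
theorem gamma_of_gamma2 {n a b J : ℕ} (ha : 0 < a) (hz : S_zeta n (2 ^ a) b J)
    (h : S_gamma2 n b J) : S_gamma n (2 ^ a) b J := by
  classical
  intro F hF
  obtain ⟨γ, hγ, H⟩ := h (F.image fun f => (f, a)) (by
    intro p hp
    obtain ⟨f, hf, rfl⟩ := mem_image.1 hp
    exact ⟨hF f hf, ha, hz⟩)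
  refine ⟨γ, hγ, fun q hq hbq A' N => ?_⟩
  obtain ⟨Z, h1, h2, h3, h4, S₀, h5⟩ := H q hq hbq A' N
  have hmem : ∀ f ∈ F, (f, a) ∈ F.image fun f => (f, a) := fun f hf => mem_image.2 ⟨f, hf, rfl⟩
  refine ⟨fun f v => Z (f, a) v, fun f hf => h1 _ (hmem f hf), fun f hf v hv => ?_,
    fun f hf => h3 _ (hmem f hf), fun f hf => h4 _ (hmem f hf), S₀, ?_⟩
  · have := h2 _ (hmem f hf) v hv
    push_cast at this ⊢
    exact this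
  · intro S hS y hy1 hy2 hy3 T hT
    obtain ⟨p, hp, h6⟩ := h5 S hS y hy1 hy2 hy3 (fun _ => T) (by
      intro x hx
      obtain ⟨f, hf, hfT⟩ := hT x hx
      exact ⟨(f, a), hmem f hf, hfT⟩)
    obtain ⟨f, hf, rfl⟩ := mem_image.1 hp
    refine ⟨f, hf, fun v hv => ?_⟩
    have := h6 v hv
    push_cast at this ⊢
    exact this

end Pool.Agent.H38.PZ
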