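import Pool.Agent.H38.PZ.Asm1
import Pool.Agent.H38.PZ.TwoLevel
import Pool.Agent.H38.PZ.NotReg
import Pool.Agent.H40.PZ.Zeta2
import Pool.Agent.H53.PZ.GammaB

/-! The case `b ≡ 1`. -/

namespace Pool.Agent.H38.PZ

theorem full2 (m b : ℕ) (hm : 0 < m)
    (hb : (2 : ℤ) ^ (padicValNat 2 (8 * m) + 2) ∣ (b : ℤ) - 1) :
    S_full (8 * m) (2 ^ (4 * m)) b := by
  have hodd : Odd b := by
    obtain ⟨c, hc⟩ := hb
    have h1 : (b : ℤ) = 2 * (2 ^ (padicValNat 2 (8 * m) + 1) * c) + 1 := by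
      have e2 : (2 : ℤ) ^ (padicValNat 2 (8 * m) + 2) =
          2 * 2 ^ (padicValNat 2 (8 * m) + 1) := by ring
      rw [e2] at hc
      linear_combination hc
    have h2 : Odd (b : ℤ) := ⟨_, h1⟩
    exact_mod_cast h2
  refine full2_of_gamma2 (J := 2 ^ (padicValNat 2 (8 * m) + 2)) (by omega) (by omega) hodd.pos
    (by positivity) (fun k hk => ?_) (Pool.Agent.H53.PZ.gamma2 _ _ _ (by omega) hodd (by omega))
  refine Pool.Agent.H40.PZ.zeta2 m b k hm ?_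
  have h1 : (2 : ℤ) ^ (padicValNat 2 (8 * m) + 2) ∣ 2 ^ (4 * m + 8 * m * k) := by
    refine pow_dvd_pow _ ?_
    have h2 := ee_le hm
    unfold ee at h2
    nlinarith
  have h3 : (2 : ℤ) ^ (4 * m + 8 * m * k) + (b : ℤ) - 1 =
      2 ^ (4 * m + 8 * m * k) + ((b : ℤ) - 1) := by ring
  rw [h3]
  exact dvd_add h1 hb

end Pool.Agent.H38.PZ
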