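import Pool.Agent.H38.PZ.Defs

/-! Averages over intervals, and the main inequality. -/

open Finset

namespace Pool.Agent.H38.PZ

/-- the interval `{0, …, S - 1}` -/
def Bx (S : ℕ) : Finset ℤ := (range S).map Nat.castEmbedding

lemma sum_Bx (S : ℕ) (Φ : ℤ → ℝ) : ∑ s ∈ Bx S, Φ s = ∑ a ∈ range S, Φ a := by
  rw [Bx, sum_map]
  rfl

lemma card_Bx (S : ℕ) : (Bx S).card = S := by
  simp [Bx]

lemma av_def (S : ℕ) (Φ : ℤ → ℝ) : av S Φ = (∑ s ∈ Bx S, Φ s) / (S : ℝ) := by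
  rw [sum_Bx]
  rfl

/-- size -/
noncomputable def nn (t : ℤ) : ℝ := |(t : ℝ)|

lemma nn_nonneg (t : ℤ) : 0 ≤ nn t := by unfold nn; positivity

lemma nn_mul (a b : ℤ) : nn (a * b) ≤ 2 * nn a * nn b := by
  unfold nn
  push_cast
  rw [abs_mul]
  have := mul_nonneg (abs_nonneg (a : ℝ)) (abs_nonneg (b : ℝ))
  nlinarith

lemma mem_Bx {S : ℕ} {s : ℤ} : s ∈ Bx S ↔ 0 ≤ s ∧ s < S := by
  unfold Bx
  simp only [mem_map, mem_range, Nat.castEmbedding_apply]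
  constructor
  · rintro ⟨a, ha, rfl⟩
    omega
  · rintro ⟨h1, h2⟩
    exact ⟨s.toNat, by omega, by omega⟩

lemma nn_Bx {S : ℕ} {s : ℤ} (h : s ∈ Bx S) : nn s ≤ 2 * S := by
  rw [mem_Bx] at h
  obtain ⟨h1, h2⟩ := h
  unfold nn
  have h1' : (0 : ℝ) ≤ s := by exact_mod_cast h1
  have h2' : (s : ℝ) ≤ S := by exact_mod_cast h2.le
  rw [abs_of_nonneg h1']
  linarith

lemma nn_mul_Bx {S : ℕ} {s : ℤ} (h : s ∈ Bx S) (a : ℤ) : nn (a * s) ≤ 4 * nn a * S := by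
  refine (nn_mul a s).trans ?_
  have := nn_Bx h
  nlinarith [nn_nonneg a]

lemma shift1 (S : ℕ) (φ : ℤ → ℝ) (C : ℝ) (hφ : ∀ x, |φ x| ≤ C) (t : ℤ) :
    |∑ a ∈ range S, φ (a + t) - ∑ a ∈ range S, φ a| ≤ 2 * C * |(t : ℝ)| := by
  have hC : 0 ≤ C := (abs_nonneg _).trans (hφ 0)
  have step : ∀ t : ℤ, |∑ a ∈ range S, φ (a + (t + 1)) - ∑ a ∈ range S, φ (a + t)| ≤ 2 * C := by
    intro t
    have h1 : ∑ a ∈ range S, φ (a + (t + 1)) + φ t = ∑ a ∈ range (S + 1), φ (a + t) := by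
      rw [sum_range_succ' (fun a : ℕ => φ ((a : ℤ) + t))]
      congr 1
      · refine sum_congr rfl fun a _ => ?_
        push_cast
        congr 1
        ring
      · simp
    have h2 : ∑ a ∈ range (S + 1), φ (a + t) = ∑ a ∈ range S, φ (a + t) + φ (S + t) := by
      rw [sum_range_succ]
    have h3 : ∑ a ∈ range S, φ (a + (t + 1)) - ∑ a ∈ range S, φ (a + t) = φ (S + t) - φ t := by
      linarith
    rw [h3]
    have := hφ (S + t)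
    have := hφ t
    rw [abs_le] at *
    constructor <;> linarith
  induction t using Int.induction_on with
  | zero => simp
  | succ i ih =>
    have := step i
    have h4 : |((i : ℤ) + 1 : ℤ) * (1 : ℝ)| = |((i : ℤ) : ℝ)| + 1 := by
      push_cast
      rw [mul_one, abs_of_nonneg (by positivity), abs_of_nonneg (by positivity)]
    rw [mul_one] at h4
    rw [h4]
    calc _ = |(∑ a ∈ range S, φ (a + (i + 1)) - ∑ a ∈ range S, φ (a + i)) +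
          (∑ a ∈ range S, φ (a + i) - ∑ a ∈ range S, φ a)| := by congr 1; ring
      _ ≤ _ := abs_add_le _ _
      _ ≤ 2 * C + 2 * C * |((i : ℤ) : ℝ)| := add_le_add this ih
      _ = _ := by ring
  | pred i ih =>
    have := step (-i - 1)
    rw [sub_add_cancel] at this
    have h4 : |((-(i : ℤ) - 1 : ℤ) : ℝ)| = |((-(i : ℤ) : ℤ) : ℝ)| + 1 := by
      push_cast
      rw [abs_of_nonpos (by have : (0 : ℝ) ≤ i := by positivity
                            linarith), abs_neg, abs_of_nonneg (by positivity)]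
      ring
    rw [h4]
    calc _ = |(∑ a ∈ range S, φ (a + -i) - ∑ a ∈ range S, φ a) -
          (∑ a ∈ range S, φ (a + -i) - ∑ a ∈ range S, φ (a + (-i - 1)))| := by congr 1; ring
      _ ≤ _ := abs_sub _ _
      _ ≤ 2 * C * |((-(i : ℤ) : ℤ) : ℝ)| + 2 * C := add_le_add ih this
      _ = _ := by ring

lemma shift (S : ℕ) (hS : 0 < S) (Φ : ℤ → ℝ) (hΦ : ∀ x, |Φ x| ≤ 1) (t : ℤ) :
    |av S (fun s => Φ (s + t)) - av S Φ| ≤ 2 * nn t / S := by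
  have hS' : (0 : ℝ) < S := by exact_mod_cast hS
  unfold av
  rw [← sub_div, abs_div, abs_of_pos hS', div_le_div_iff_of_pos_right hS']
  have := shift1 S Φ 1 hΦ t
  unfold nn
  linarith

/-! ### elementary properties of `av` -/

lemma av_mono {S : ℕ} {Φ Ψ : ℤ → ℝ} (h : ∀ s ∈ Bx S, Φ s ≤ Ψ s) : av S Φ ≤ av S Ψ := by
  rw [av_def, av_def]
  exact div_le_div_of_nonneg_right (sum_le_sum h) (by positivity)

lemma av_congr {S : ℕ} {Φ Ψ : ℤ → ℝ} (h : ∀ s ∈ Bx S, Φ s = Ψ s) : av S Φ = av S Ψ := by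
  rw [av_def, av_def]
  rw [sum_congr rfl h]

lemma av_const {S : ℕ} (hS : 0 < S) (c : ℝ) : av S (fun _ => c) = c := by
  rw [av_def]
  rw [sum_const, card_Bx, nsmul_eq_mul]
  have : (S : ℝ) ≠ 0 := by exact_mod_cast hS.ne'
  field_simp

lemma av_add {S : ℕ} (Φ Ψ : ℤ → ℝ) : av S (fun s => Φ s + Ψ s) = av S Φ + av S Ψ := by
  unfold av
  rw [sum_add_distrib, add_div]

lemma av_sub {S : ℕ} (Φ Ψ : ℤ → ℝ) : av S (fun s => Φ s - Ψ s) = av S Φ - av S Ψ := by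
  unfold av
  rw [sum_sub_distrib, sub_div]

lemma av_mul {S : ℕ} (c : ℝ) (Φ : ℤ → ℝ) : av S (fun s => c * Φ s) = c * av S Φ := by
  unfold av
  rw [← mul_sum, mul_div_assoc]

lemma av_comm (S T : ℕ) (Φ : ℤ → ℤ → ℝ) :
    av S (fun s => av T (fun t => Φ s t)) = av T (fun t => av S (fun s => Φ s t)) := by
  unfold av
  simp only [← sum_div]
  rw [sum_comm]
  rw [div_div, div_div, mul_comm]

lemma av_sum {ι : Type*} (A : Finset ι) (S : ℕ) (Φ : ι → ℤ → ℝ) :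
    av S (fun s => ∑ i ∈ A, Φ i s) = ∑ i ∈ A, av S (Φ i) := by
  unfold av
  rw [sum_comm, ← sum_div]

lemma av_abs_le {S : ℕ} (Φ : ℤ → ℝ) : |av S Φ| ≤ av S (fun s => |Φ s|) := by
  unfold av
  rw [abs_div, abs_of_nonneg (by positivity : (0 : ℝ) ≤ (S : ℝ))]
  exact div_le_div_of_nonneg_right (abs_sum_le_sum_abs _ _) (by positivity)

lemma av_sq_le {S : ℕ} (hS : 0 < S) (Φ : ℤ → ℝ) : (av S Φ) ^ 2 ≤ av S (fun s => Φ s ^ 2) := by
  rw [av_def, av_def]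
  have hS' : (0 : ℝ) < S := by exact_mod_cast hS
  rw [div_pow, div_le_div_iff₀ (by positivity) (by positivity)]
  have := sq_sum_le_card_mul_sum_sq (s := Bx S) (f := Φ)
  rw [card_Bx] at this
  nlinarith

lemma av_le_of_le {S : ℕ} (hS : 0 < S) {Φ : ℤ → ℝ} {c : ℝ} (h : ∀ s ∈ Bx S, Φ s ≤ c) :
    av S Φ ≤ c := (av_mono h).trans_eq (av_const hS c)

lemma le_av_of_le {S : ℕ} (hS : 0 < S) {Φ : ℤ → ℝ} {c : ℝ} (h : ∀ s ∈ Bx S, c ≤ Φ s) :
    c ≤ av S Φ := (av_const hS c).symm.trans_le (av_mono h)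

/-! ### `E2` -/

lemma E2_mono {S : ℕ} {Φ Ψ : ℤ → ℤ → ℝ} (h : ∀ s ∈ Bx S, ∀ t ∈ Bx S, Φ s t ≤ Ψ s t) :
    E2 S Φ ≤ E2 S Ψ := av_mono fun s hs => av_mono fun t ht => h s hs t ht

lemma E2_congr {S : ℕ} {Φ Ψ : ℤ → ℤ → ℝ} (h : ∀ s ∈ Bx S, ∀ t ∈ Bx S, Φ s t = Ψ s t) :
    E2 S Φ = E2 S Ψ := av_congr fun s hs => av_congr fun t ht => h s hs t ht

lemma E2_const {S : ℕ} (hS : 0 < S) (c : ℝ) : E2 S (fun _ _ => c) = c := by
  unfold E2
  rw [av_const hS, av_const hS]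

lemma E2_add {S : ℕ} (Φ Ψ : ℤ → ℤ → ℝ) :
    E2 S (fun s t => Φ s t + Ψ s t) = E2 S Φ + E2 S Ψ := by
  unfold E2
  simp only [av_add]

lemma E2_sub {S : ℕ} (Φ Ψ : ℤ → ℤ → ℝ) :
    E2 S (fun s t => Φ s t - Ψ s t) = E2 S Φ - E2 S Ψ := by
  unfold E2
  simp only [av_sub]

lemma E2_mul {S : ℕ} (c : ℝ) (Φ : ℤ → ℤ → ℝ) : E2 S (fun s t => c * Φ s t) = c * E2 S Φ := by
  unfold E2
  simp only [av_mul]

lemma E2_sum {ι : Type*} (A : Finset ι) (S : ℕ) (Φ : ι → ℤ → ℤ → ℝ) :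
    E2 S (fun s t => ∑ i ∈ A, Φ i s t) = ∑ i ∈ A, E2 S (Φ i) := by
  unfold E2
  simp only [av_sum]

lemma E2_av (S T : ℕ) (Φ : ℤ → ℤ → ℤ → ℝ) :
    E2 S (fun s t => av T (fun u => Φ u s t)) = av T (fun u => E2 S (Φ u)) := by
  unfold E2
  have : ∀ s, av S (fun t => av T (fun u => Φ u s t)) = av T (fun u => av S (fun t => Φ u s t)) :=
    fun s => av_comm S T _
  simp only [this]
  rw [av_comm]

lemma E2_abs_le {S : ℕ} (Φ : ℤ → ℤ → ℝ) : |E2 S Φ| ≤ E2 S (fun s t => |Φ s t|) :=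
  (av_abs_le _).trans (av_mono fun _ _ => av_abs_le _)

lemma E2_sq_le {S : ℕ} (hS : 0 < S) (Φ : ℤ → ℤ → ℝ) :
    (E2 S Φ) ^ 2 ≤ E2 S (fun s t => Φ s t ^ 2) :=
  (av_sq_le hS _).trans (av_mono fun _ _ => av_sq_le hS _)

lemma abs_av_le {S : ℕ} (hS : 0 < S) {Φ : ℤ → ℝ} {c : ℝ} (h : ∀ s ∈ Bx S, |Φ s| ≤ c) :
    |av S Φ| ≤ c := (av_abs_le _).trans (av_le_of_le hS h)

lemma abs_E2_le {S : ℕ} (hS : 0 < S) {Φ : ℤ → ℤ → ℝ} {c : ℝ}
    (h : ∀ s ∈ Bx S, ∀ t ∈ Bx S, |Φ s t| ≤ c) : |E2 S Φ| ≤ c :=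
  abs_av_le hS fun s hs => abs_av_le hS fun t ht => h s hs t ht

lemma shift2 (S : ℕ) (hS : 0 < S) (Φ : ℤ → ℤ → ℝ) (hΦ : ∀ x y, |Φ x y| ≤ 1) (p r : ℤ) :
    |E2 S (fun s t => Φ (s + p) (t + r)) - E2 S Φ| ≤ 2 * (nn p + nn r) / S := by
  have h1 : |E2 S (fun s t => Φ (s + p) (t + r)) - E2 S (fun s t => Φ (s + p) t)|
      ≤ 2 * nn r / S := by
    rw [← E2_sub]
    unfold E2
    refine abs_av_le hS fun s _ => ?_
    rw [av_sub]
    exact shift S hS (fun t => Φ (s + p) t) (fun _ => hΦ _ _) r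
  have h2 : |E2 S (fun s t => Φ (s + p) t) - E2 S Φ| ≤ 2 * nn p / S := by
    unfold E2
    exact shift S hS (fun s => av S (fun t => Φ s t))
      (fun s => abs_av_le hS fun t _ => hΦ s t) p
  have := abs_add_le (E2 S (fun s t => Φ (s + p) (t + r)) - E2 S (fun s t => Φ (s + p) t))
    (E2 S (fun s t => Φ (s + p) t) - E2 S Φ)
  rw [sub_add_sub_cancel] at this
  refine this.trans ((add_le_add h1 h2).trans_eq ?_)
  ring

end Pool.Agent.H38.PZ
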