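import Pool.Agent.H38.PZ.Main

/-! From the lower bound `S_gamma` to `S_core`. -/

open Finset

namespace Pool.Agent.H38.PZ

/-- position of the corner of an interval -/
def loc (J S q : ℕ) (A' : ℝ) (y : ℤ) : Prop :=
  10 * (S : ℝ) * q ≤ y ∧ (y : ℝ) ≤ A' * S ∧ (J : ℤ) ∣ y - 1

/-- `dd` is a density attained in arbitrarily long progressions (in a fixed relative position) -/
def good (b J : ℕ) (T : Set ℤ) (dd : ℝ) : Prop :=
  ∃ q : ℕ, 0 < q ∧ b * J ∣ q ∧ ∃ A' : ℝ, ∀ S₀ : ℕ, ∃ S ≥ S₀, ∃ y : ℤ, loc J S q A' y ∧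
    dd ≤ av S (fun s => ind T (y + q * s))

lemma ind_bd (T : Set ℤ) (x : ℤ) : 0 ≤ ind T x ∧ ind T x ≤ 1 := by
  unfold ind
  split_ifs <;> norm_num

lemma good_le_one {b J : ℕ} {T : Set ℤ} {dd : ℝ} (h : good b J T dd) : dd ≤ 1 := by
  obtain ⟨q, _, _, A', h⟩ := h
  obtain ⟨S, hS, y, _, h2⟩ := h 1
  exact h2.trans (av_le_of_le hS fun _ _ => (ind_bd _ _).2)

lemma s_Bx {S : ℕ} {s : ℤ} (h : s ∈ Bx S) : (0 : ℝ) ≤ s ∧ (s : ℝ) ≤ S := by
  rw [mem_Bx] at h
  exact ⟨by exact_mod_cast h.1, by exact_mod_cast h.2.le⟩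

lemma good_pos {b J : ℕ} (hb : 0 < b) (hJ : 0 < J) {T : Set ℤ} {F : Finset ℤ}
    (hF : ∀ f ∈ F, P1 J f)
    (h : ∀ h, P1 J h → ∃ f ∈ F, f * h ∈ T) : good b J T (1 / (F.card : ℝ)) := by
  have hne : F.Nonempty := by
    obtain ⟨f, hf, _⟩ := h 1 ⟨by norm_num, by simp⟩
    exact ⟨f, hf⟩
  have hk : (0 : ℝ) < F.card := by exact_mod_cast hne.card_pos
  have hbJ : 0 < b * J := Nat.mul_pos hb hJ
  have key : ∀ S : ℕ, 0 < S → ∃ f ∈ F, 1 / (F.card : ℝ) ≤
      av S (fun s => ind T (f * (10 * S * (b * J) + 1) + f * (b * J) * s)) := by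
    intro S hS
    refine exists_le_of_sum_le hne ?_
    rw [sum_const, nsmul_eq_mul, mul_one_div_cancel hk.ne', ← av_sum]
    refine le_av_of_le hS fun s hs => ?_
    rw [mem_Bx] at hs
    have hp : P1 J ((10 * S * (b * J) + 1) + (b * J) * s) := by
      constructor
      · have h1 : 0 ≤ ((b : ℤ) * J) * s := mul_nonneg (by positivity) hs.1
        have h2 : (0 : ℤ) ≤ 10 * S * (b * J) := by positivity
        linarith
      · refine ⟨(10 * S * b + b * s), ?_⟩
        ring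
    obtain ⟨f, hf, hT⟩ := h _ hp
    have : ind T (f * (10 * S * (b * J) + 1) + f * (b * J) * s) = 1 := by
      unfold ind
      rw [if_pos]
      convert hT using 1
      ring
    rw [← this]
    exact single_le_sum (f := fun f => ind T (f * (10 * S * (b * J) + 1) + f * (b * J) * s))
      (fun _ _ => (ind_bd _ _).1) hf
  have : ∃ f ∈ F, ∀ S₀ : ℕ, ∃ S ≥ S₀, 1 / (F.card : ℝ) ≤
      av S (fun s => ind T (f * (10 * S * (b * J) + 1) + f * (b * J) * s)) := by
    by_contra hcon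
    push Not at hcon
    choose! S₀ hS₀ using hcon
    obtain ⟨f, hf, hf2⟩ := key (F.sup S₀ + 1) (by omega)
    have := hS₀ f hf (F.sup S₀ + 1) (by have := le_sup (f := S₀) hf; omega)
    exact absurd hf2 (not_le.mpr this)
  obtain ⟨f, hf, hS⟩ := this
  obtain ⟨hfp, hfJ⟩ := hF f hf
  obtain ⟨m, rfl⟩ := Int.eq_ofNat_of_zero_le hfp.le
  have hm : 0 < m := by exact_mod_cast hfp
  refine ⟨m * (b * J), Nat.mul_pos hm hbJ, Dvd.intro_left _ rfl, 10 * (m * (b * J)) + m,
    fun S₀ => ?_⟩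
  obtain ⟨S, hSS, h2⟩ := hS (S₀ + 1)
  have hS1 : (1 : ℝ) ≤ S := by
    have : 1 ≤ S := by omega
    exact_mod_cast this
  have hmR : (0 : ℝ) < m := by exact_mod_cast hm
  refine ⟨S, by omega, m * (10 * S * (b * J) + 1), ⟨?_, ?_, ?_⟩, ?_⟩
  · push_cast
    nlinarith
  · push_cast
    nlinarith
  · obtain ⟨c, hc⟩ := hfJ
    refine ⟨c + m * (10 * S * b), ?_⟩
    linear_combination hc
  · refine h2.trans_eq (av_congr fun s _ => ?_)
    push_cast
    rfl

lemma lo_aux {S L d x z : ℝ} (hLd : L * d ≤ S / 2) (hx : 0 < x) (hS : 0 ≤ S)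
    (hb : 10 * S * x ≤ z) : 10 * L * (x * d) ≤ z := by
  have h1 : L * d * x ≤ S / 2 * x := mul_le_mul_of_nonneg_right hLd hx.le
  have h2 : 0 ≤ S * x := by positivity
  nlinarith

lemma ratio_aux {C W S K : ℝ} (hS : 0 < S) (hK : 0 < K) (hC : 0 ≤ C) (h : W ≤ S / K) :
    C * W / S ≤ C / K := by
  rw [div_le_div_iff₀ hS hK]
  rw [le_div_iff₀ hK] at h
  have := mul_le_mul_of_nonneg_left h hC
  linarith

lemma final_aux {β N r θ D γ k ε : ℝ} (hβ0 : 0 < β) (hN1 : 1 / N ≤ β ^ 2 / 48)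
    (hr3 : r ≤ β ^ 2 / 768) (hr2 : r ≤ β / 200) (hθ : θ ≤ β ^ 2 / 768) (hk : 1 ≤ k)
    (hβ : β = γ / k ^ 2) (hγ : 0 < γ) (hDk : 1 / k ≤ D) (hε2 : ε ≤ β / 24)
    (hmain : D ^ 2 * γ ≤ √(1 / N + 16 * r + 4 * θ) + 3 * (2 * ε) + 64 * r) : False := by
  have e1 : √(1 / N + 16 * r + 4 * θ) ≤ β / 4 := by
    rw [Real.sqrt_le_left (by positivity)]
    have h3 : 0 < β ^ 2 := by positivity
    have h4 : (β / 4) ^ 2 = β ^ 2 / 16 := by ring
    rw [h4]
    linarith
  have e2 : β ≤ D ^ 2 * γ := by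
    rw [hβ, div_eq_mul_inv, mul_comm]
    have : (1 / k) ^ 2 ≤ D ^ 2 := by gcongr
    have h4 : (k ^ 2)⁻¹ = (1 / k) ^ 2 := by rw [one_div, inv_pow]
    rw [h4]
    gcongr
  linarith

theorem core_of_gamma {n A b J : ℕ} (hA : 0 < A) (hb : 0 < b) (hJ : 0 < J)
    (HG : S_gamma n A b J) : S_core n A b J := by
  classical
  intro T hT
  obtain ⟨hTP, F, hF, hFT⟩ := hT
  by_contra hno
  push Not at hno
  have hne : F.Nonempty := by
    obtain ⟨f, hf, _⟩ := hFT 1 ⟨by norm_num, by simp⟩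
    exact ⟨f, hf⟩
  have hk : (1 : ℝ) ≤ F.card := by exact_mod_cast hne.card_pos
  obtain ⟨γ, hγ, HG⟩ := HG F hF
  set k : ℝ := (F.card : ℝ) with hkdef
  -- the maximal density
  set G : Set ℝ := {dd | good b J T dd} with hG
  have hGb : BddAbove G := ⟨1, fun dd h => good_le_one h⟩
  have hG1 : 1 / k ∈ G := good_pos hb hJ hF hFT
  set ds : ℝ := sSup G with hds
  have hds1 : 1 / k ≤ ds := le_csSup hGb hG1
  have hds2 : ds ≤ 1 := csSup_le ⟨_, hG1⟩ fun dd h => good_le_one h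
  set β : ℝ := γ / k ^ 2 with hβ
  have hβ0 : 0 < β := by positivity
  set ε : ℝ := min 1 (β / 24) with hε
  have hε0 : 0 < ε := by positivity
  have hε1 : ε ≤ 1 := min_le_left _ _
  have hε2 : ε ≤ β / 24 := min_le_right _ _
  set D : ℝ := ds + ε with hD
  have hDk : 1 / k ≤ D := by linarith
  have hD0 : 0 ≤ D := le_trans (by positivity) hDk
  -- a near maximal density
  obtain ⟨dd, hdd, hdd2⟩ : ∃ dd ∈ G, ds - ε < dd := exists_lt_of_lt_csSup ⟨_, hG1⟩ (by linarith)
  obtain ⟨q, hq, hbq, A0, hgood⟩ := hdd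
  have hup : ¬ good b J T D := fun h => by
    have := le_csSup hGb (show D ∈ G from h)
    linarith
  unfold good at hup
  push Not at hup
  -- the number `N`
  obtain ⟨N, hN⟩ := exists_nat_gt (48 / β ^ 2)
  have hN0 : (0 : ℝ) < N := lt_of_le_of_lt (by positivity) hN
  have hNpos : 0 < N := by exact_mod_cast hN0
  have hN1 : 1 / (N : ℝ) ≤ β ^ 2 / 48 := by
    rw [div_lt_iff₀ (by positivity)] at hN
    rw [div_le_div_iff₀ hN0 (by norm_num)]
    linarith
  obtain ⟨Z, hZ1, hZb, hZq, hZ2, S₁, HG⟩ := HG q hq hbq A0 N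
  set lam : ℤ → ℕ → ℤ := fun f v => Z f v ^ n with hlam
  -- the common multiple
  set d : ℕ := ∏ f ∈ F, ∏ v ∈ range N, ∏ v' ∈ range N,
    (if v = v' then 1 else (lam f v' - lam f v).natAbs) with hd
  have hdpos : 0 < d := by
    rw [hd]
    refine prod_pos fun f hf => prod_pos fun v hv => prod_pos fun v' hv' => ?_
    rw [mem_range] at hv hv'
    split_ifs with h
    · norm_num
    · exact Int.natAbs_pos.mpr (sub_ne_zero.mpr (hZ2 f hf v' hv' v hv (Ne.symm h)))
  have hdvd : ∀ f ∈ F, ∀ v < N, ∀ v' < N, v ≠ v' → ∃ e, (lam f v' - lam f v) * e = (d : ℤ) := by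
    intro f hf v hv v' hv' hvv
    have h2 : (lam f v' - lam f v).natAbs ∣ d := by
      rw [hd]
      refine dvd_trans ?_ (dvd_prod_of_mem _ hf)
      refine dvd_trans ?_ (dvd_prod_of_mem _ (mem_range.mpr hv))
      refine dvd_trans ?_ (dvd_prod_of_mem _ (mem_range.mpr hv'))
      rw [if_neg hvv]
    obtain ⟨e, he⟩ := Int.natAbs_dvd.mp (Int.natCast_dvd_natCast.mpr h2)
    exact ⟨e, he.symm⟩
  choose! e he using hdvd
  -- the constant `C`
  set Bf : ℤ → ℕ → ℕ → ℝ := fun f v v' =>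
    nn (lam f v) + nn ((A : ℤ) * e f v v') + nn (lam f v * e f v v') with hBf
  have hBf0 : ∀ f v v', 0 ≤ Bf f v v' := fun f v v' =>
    add_nonneg (add_nonneg (nn_nonneg _) (nn_nonneg _)) (nn_nonneg _)
  set C : ℝ := 1 + d + A + ∑ f ∈ F, ∑ v ∈ range N, ∑ v' ∈ range N, Bf f v v' with hC
  have hCsum : 0 ≤ ∑ f ∈ F, ∑ v ∈ range N, ∑ v' ∈ range N, Bf f v v' :=
    sum_nonneg fun _ _ => sum_nonneg fun _ _ => sum_nonneg fun _ _ => hBf0 _ _ _
  have hd0R : (0 : ℝ) ≤ d := by positivity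
  have hA0R : (0 : ℝ) ≤ A := by positivity
  have hC1 : 1 ≤ C := by linarith
  have hCd : (d : ℝ) ≤ C := by linarith
  have hCA : (A : ℝ) ≤ C := by linarith
  have hCB : ∀ f ∈ F, ∀ v < N, ∀ v' < N, Bf f v v' ≤ C := by
    intro f hf v hv v' hv'
    have h1 : Bf f v v' ≤ ∑ v' ∈ range N, Bf f v v' :=
      single_le_sum (f := fun v' => Bf f v v') (fun _ _ => hBf0 _ _ _) (mem_range.mpr hv')
    have h2 : ∑ v' ∈ range N, Bf f v v' ≤ ∑ v ∈ range N, ∑ v' ∈ range N, Bf f v v' :=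
      single_le_sum (f := fun v => ∑ v' ∈ range N, Bf f v v')
        (fun _ _ => sum_nonneg fun _ _ => hBf0 _ _ _) (mem_range.mpr hv)
    have h3 : ∑ v ∈ range N, ∑ v' ∈ range N, Bf f v v' ≤
        ∑ f ∈ F, ∑ v ∈ range N, ∑ v' ∈ range N, Bf f v v' :=
      single_le_sum (f := fun f => ∑ v ∈ range N, ∑ v' ∈ range N, Bf f v v')
        (fun _ _ => sum_nonneg fun _ _ => sum_nonneg fun _ _ => hBf0 _ _ _) hf
    linarith
  -- the ratio `K`
  set ζ : ℝ := min (1 / 2) (min (β / 200) (β ^ 2 / 768)) with hζ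
  have hζ0 : 0 < ζ := by positivity
  have hζ1 : ζ ≤ 1 / 2 := min_le_left _ _
  have hζ2 : ζ ≤ β / 200 := (min_le_right _ _).trans (min_le_left _ _)
  have hζ3 : ζ ≤ β ^ 2 / 768 := (min_le_right _ _).trans (min_le_right _ _)
  obtain ⟨K, hK⟩ := exists_nat_gt (C / ζ)
  have hK0 : (0 : ℝ) < K := lt_of_le_of_lt (by positivity) hK
  have hKpos : 0 < K := by exact_mod_cast hK0
  have hKC : C / K ≤ ζ := by
    rw [div_lt_iff₀ hζ0] at hK
    rw [div_le_iff₀ hK0]
    linarith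
  have hqR : (0 : ℝ) < q := by exact_mod_cast hq
  set A' : ℝ := (|A0| + q) * (2 * K ^ 2) with hA'
  obtain ⟨S₂, hS₂⟩ := hup (q * d) (Nat.mul_pos hq hdpos) (dvd_mul_of_dvd_left hbq _) A'
  obtain ⟨S₃, hS₃⟩ := hup (q * A) (Nat.mul_pos hq hA) (dvd_mul_of_dvd_left hbq _) A'
  obtain ⟨S, hS, y, hloc, hdens⟩ := hgood (S₁ + (S₂ + S₃ + 2) * K ^ 2 * 2)
  have hSge1 : S₁ ≤ S := le_trans (Nat.le_add_right _ _) hS
  have hSge2 : (S₂ + S₃ + 2) * K ^ 2 * 2 ≤ S := le_trans (Nat.le_add_left _ _) hS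
  set W : ℕ := S / K with hW
  set L : ℕ := S / K ^ 2 with hL
  have hLge : S₂ + S₃ + 2 ≤ L := by
    rw [hL, Nat.le_div_iff_mul_le (by positivity)]
    exact le_trans (Nat.le_mul_of_pos_right _ (by norm_num)) hSge2
  have hLW' : L = W / K := by
    rw [hL, hW, Nat.div_div_eq_div_mul, sq]
  have hLW : L ≤ W := by rw [hLW']; exact Nat.div_le_self _ _
  have hLpos : 0 < L := by omega
  have hWpos : 0 < W := by omega
  have hSpos : 0 < S := by
    have : W ≤ S := Nat.div_le_self _ _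
    omega
  have hSR : (0 : ℝ) < S := by exact_mod_cast hSpos
  have hWR : (0 : ℝ) < W := by exact_mod_cast hWpos
  have hLR : (0 : ℝ) < L := by exact_mod_cast hLpos
  have hLWR : (L : ℝ) ≤ W := by exact_mod_cast hLW
  have hWS : (W : ℝ) ≤ S / K := Nat.cast_div_le
  have hLW2 : (L : ℝ) ≤ W / K := by rw [hLW']; exact Nat.cast_div_le
  have hκ : C * W / S ≤ ζ := by
    refine le_trans ?_ hKC
    exact ratio_aux hSR hK0 (by linarith) hWS
  have hθ : (L : ℝ) / W ≤ ζ := by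
    refine le_trans ?_ hKC
    have := ratio_aux hWR hK0 (C := C) (by linarith) hLW2
    refine le_trans ?_ this
    gcongr
    exact le_mul_of_one_le_left hLR.le hC1
  have hCW : C * W ≤ S / 2 := by
    rw [div_le_iff₀ hSR] at hκ
    have := mul_le_mul_of_nonneg_right hζ1 hSR.le
    linarith
  have hSL : (S : ℝ) ≤ 2 * K ^ 2 * L := by
    have h1 : S < K ^ 2 * (L + 1) := by
      rw [hL]
      exact Nat.lt_mul_div_succ S (by positivity)
    have h2 : (S : ℝ) < K ^ 2 * (L + 1) := by exact_mod_cast h1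
    have h3 : (1 : ℝ) ≤ L := by exact_mod_cast hLpos
    have h4 : (0 : ℝ) < K ^ 2 := by positivity
    have h5 := mul_le_mul_of_nonneg_left h3 h4.le
    linarith
  obtain ⟨hl1, hl2, hl3⟩ := hloc
  have hJq : (J : ℤ) ∣ q := Int.natCast_dvd_natCast.mpr (dvd_trans (Dvd.intro_left _ rfl) hbq)
  -- location of the corners
  have hlocs : ∀ s ∈ Bx S, 10 * (S : ℝ) * q ≤ ((y + q * s : ℤ) : ℝ) ∧
      ((y + q * s : ℤ) : ℝ) ≤ (|A0| + q) * S ∧ (J : ℤ) ∣ y + q * s - 1 := by
    intro s hs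
    obtain ⟨b1, b2⟩ := s_Bx hs
    have hA := le_abs_self A0
    have c1 : (0 : ℝ) ≤ q * s := by positivity
    have c2 : (q : ℝ) * s ≤ q * S := by gcongr
    have c5 : A0 * S ≤ |A0| * S := by gcongr
    refine ⟨?_, ?_, ?_⟩
    · push_cast; linarith
    · push_cast
      linarith
    · have h5 : y + q * s - 1 = (y - 1) + q * s := by ring
      rw [h5]
      exact dvd_add hl3 (dvd_mul_of_dvd_left hJq _)
  set a : ℤ → ℝ := fun s => ind T (y + q * s) with ha
  have hA0nn : 0 ≤ |A0| + (q : ℝ) := by positivity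
  have h1 : ∀ s ∈ Bx S, av L (fun u => a (s + (d : ℤ) * u)) ≤ D := by
    intro s hs
    obtain ⟨b1, b2, b3⟩ := hlocs s hs
    have hLd : (L : ℝ) * d ≤ S / 2 := by
      have : (L : ℝ) * d ≤ W * C := by gcongr
      linarith
    have hAL : (|A0| + q) * S ≤ A' * L := by
      rw [hA']
      have := mul_le_mul_of_nonneg_left hSL hA0nn
      linarith
    have := hS₂ L (by omega) (y + q * s) ⟨?_, b2.trans hAL, b3⟩
    · refine le_of_eq_of_le (av_congr fun u _ => ?_) this.le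
      rw [ha]
      simp only
      congr 1
      push_cast
      ring
    · have := lo_aux hLd hqR hSR.le b1
      push_cast at this ⊢
      exact this
  have h2 : ∀ s ∈ Bx S, av W (fun w => a (s + (A : ℤ) * w)) ≤ D := by
    intro s hs
    obtain ⟨b1, b2, b3⟩ := hlocs s hs
    have hLd : (W : ℝ) * A ≤ S / 2 := by
      have : (W : ℝ) * A ≤ W * C := by gcongr
      linarith
    have hSW : (S : ℝ) ≤ 2 * K ^ 2 * W := by
      refine hSL.trans ?_
      gcongr
    have hAL : (|A0| + q) * S ≤ A' * W := by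
      rw [hA']
      have := mul_le_mul_of_nonneg_left hSW hA0nn
      linarith
    have := hS₃ W (by omega) (y + q * s) ⟨?_, b2.trans hAL, b3⟩
    · refine le_of_eq_of_le (av_congr fun u _ => ?_) this.le
      rw [ha]
      simp only
      congr 1
      push_cast
      ring
    · have := lo_aux hLd hqR hSR.le b1
      push_cast at this ⊢
      exact this
  obtain ⟨f, hf, hΓ⟩ := HG S hSge1 y hl1 hl2 hl3 T hFT
  -- the linear form
  obtain ⟨q', hq'⟩ : b ∣ q := dvd_trans (Dvd.intro _ rfl) hbq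
  obtain ⟨cf, hcf⟩ := hZb f hf 0 hNpos
  have hbZ : (b : ℤ) ≠ 0 := by exact_mod_cast hb.ne'
  have htau : ∀ v, ∃ τ : ℤ, v < N → lam f v - lam f 0 = q * τ := by
    intro v
    by_cases hv : v < N
    · obtain ⟨τ, hτ⟩ := hZq f hf v hv 0 hNpos
      exact ⟨τ, fun _ => hτ⟩
    · exact ⟨0, fun h => absurd h hv⟩
  choose τ hτ using htau
  set g : ℤ → ℝ := fun x => ind T (cf * y + q' * x) with hg
  have hpt : ∀ v < N, ∀ s t : ℤ, ((lam f v - A) * y + q * (lam f v * s - A * t)) / b =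
      cf * y + q' * (lam f v * s + τ v * y - A * t) := by
    intro v hv s t
    apply Int.ediv_eq_of_eq_mul_right hbZ
    have h3 := hτ v hv
    have h4 : (q : ℤ) = b * q' := by rw [hq']; push_cast; ring
    have h5 : lam f 0 - A = b * cf := hcf
    linear_combination y * h3 + y * h5 + (lam f v * s + τ v * y - A * t) * h4
  have hmain := main_ineq (S := S) (W := W) (L := L) (N := N) hSpos hWpos hLpos hNpos hLW
    (a := a) (g := g) (fun x => ind_bd _ _) (fun x => ind_bd _ _) (lam f)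
    (fun v => τ v * y) (e f) (A : ℤ) (d : ℤ) C D (2 * ε) γ
    (fun v hv v' hv' h => he f hf v hv v' hv' h)
    hC1 (fun v hv => ?_) (fun v hv v' hv' => ?_) (fun v hv v' hv' => ?_) ?_ ?_ hD0
    (by linarith) (by linarith) h1 h2 (by linarith) (fun v hv => ?_) (fun v hv => ?_)
  · -- the final contradiction
    exact final_aux hβ0 hN1 (hκ.trans hζ3) (hκ.trans hζ2) (hθ.trans hζ3) hk hβ hγ hDk hε2 hmain
  · have := hCB f hf v hv v hv
    rw [hBf] at this
    simp only at this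
    linarith [nn_nonneg ((A : ℤ) * e f v v), nn_nonneg (lam f v * e f v v)]
  · have := hCB f hf v hv v' hv'
    rw [hBf] at this
    simp only at this
    linarith [nn_nonneg (lam f v), nn_nonneg (lam f v * e f v v')]
  · have := hCB f hf v hv v' hv'
    rw [hBf] at this
    simp only at this
    linarith [nn_nonneg (lam f v), nn_nonneg ((A : ℤ) * e f v v')]
  · unfold nn
    push_cast
    rw [abs_of_nonneg hA0R]
    exact hCA
  · unfold nn
    push_cast
    rw [abs_of_nonneg hd0R]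
    exact hCd
  · refine (hΓ v hv).trans_eq (E2_congr fun s _ t _ => ?_)
    rw [hg]
    simp only
    rw [← hpt v hv]
  · rw [← E2_const hSpos 0]
    refine E2_congr fun s _ t _ => ?_
    by_contra hne0
    have m1 : y + q * s ∈ T := by
      by_contra h
      apply hne0
      rw [ha]
      simp [ind, h]
    have m2 : y + q * t ∈ T := by
      by_contra h
      apply hne0
      rw [ha]
      simp [ind, h]
    have m3 : cf * y + q' * (lam f v * s + τ v * y - A * t) ∈ T := by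
      by_contra h
      apply hne0
      rw [hg]
      simp only [ind]
      rw [if_neg h]
      ring
    refine hno _ m2 _ m3 _ m1 (Z f v) (hZ1 f hf v hv) ?_
    have h3 := hτ v hv
    have h4 : (q : ℤ) = b * q' := by rw [hq']; push_cast; ring
    have h5 : lam f 0 - A = b * cf := hcf
    have h6 : Z f v ^ n = lam f v := rfl
    rw [h6]
    linear_combination (-y) * h5 + y * h3 * (-1) - (lam f v * s + τ v * y - A * t) * h4
end Pool.Agent.H38.PZ
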