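import Pool.Agent.H38.PZ.Core
import Pool.Agent.H38.PZ.Defs2

/-! The abstract core: two points in a set `V` of positive density, the third in one of finitely
many sets. -/

open Finset

namespace Pool.Agent.H38.PZ

lemma final_aux2 {β N r θ D γ δ ε : ℝ} (hβ0 : 0 < β) (hN1 : 1 / N ≤ β ^ 2 / 48)
    (hr3 : r ≤ β ^ 2 / 768) (hr2 : r ≤ β / 200) (hθ : θ ≤ β ^ 2 / 768) (hδ : 0 < δ)
    (hβ : β = γ * δ ^ 2) (hγ : 0 < γ) (hDk : δ ≤ D) (hε2 : ε ≤ β / 24)
    (hmain : D ^ 2 * γ ≤ √(1 / N + 16 * r + 4 * θ) + 3 * (2 * ε) + 64 * r) : False := by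
  have e1 : √(1 / N + 16 * r + 4 * θ) ≤ β / 4 := by
    rw [Real.sqrt_le_left (by positivity)]
    have h3 : 0 < β ^ 2 := by positivity
    have h4 : (β / 4) ^ 2 = β ^ 2 / 16 := by ring
    rw [h4]
    linarith
  have e2 : β ≤ D ^ 2 * γ := by
    rw [hβ, mul_comm]
    gcongr
  linarith

theorem core2 {n b J : ℕ} (hb : 0 < b) (HG : S_gamma2 n b J) {V : Set ℤ}
    {T : ℤ × ℕ → Set ℤ} {F : Finset (ℤ × ℕ)}
    (hF : ∀ p ∈ F, P1 J p.1 ∧ 0 < p.2 ∧ S_zeta n (2 ^ p.2) b J)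
    (hFT : ∀ h, P1 J h → ∃ p ∈ F, p.1 * h ∈ T p) {δ0 : ℝ} (hδ0 : 0 < δ0) (hV : good b J V δ0) :
    ∃ p ∈ F, ∃ X ∈ V, ∃ W ∈ V, ∃ Y ∈ T p, ∃ Z : ℤ, 0 < Z ∧
      2 ^ p.2 * X + b * Y = W * Z ^ n := by
  classical
  by_contra hno
  push Not at hno
  obtain ⟨γ, hγ, HG⟩ := HG F hF
  -- the maximal density
  set G : Set ℝ := {dd | good b J V dd} with hG
  have hGb : BddAbove G := ⟨1, fun dd h => good_le_one h⟩
  have hG1 : δ0 ∈ G := hV
  set ds : ℝ := sSup G with hds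
  have hds1 : δ0 ≤ ds := le_csSup hGb hG1
  have hds2 : ds ≤ 1 := csSup_le ⟨_, hG1⟩ fun dd h => good_le_one h
  set β : ℝ := γ * δ0 ^ 2 with hβ
  have hβ0 : 0 < β := by positivity
  set ε : ℝ := min 1 (β / 24) with hε
  have hε0 : 0 < ε := by positivity
  have hε1 : ε ≤ 1 := min_le_left _ _
  have hε2 : ε ≤ β / 24 := min_le_right _ _
  set D : ℝ := ds + ε with hD
  have hDk : δ0 ≤ D := by linarith
  have hD0 : 0 ≤ D := le_trans (by positivity) hDk
  -- a near maximal density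
  obtain ⟨dd, hdd, hdd2⟩ : ∃ dd ∈ G, ds - ε < dd := exists_lt_of_lt_csSup ⟨_, hG1⟩ (by linarith)
  obtain ⟨q, hq, hbq, A0, hgood⟩ := hdd
  have hup : ¬ good b J V D := fun h => by
    have := le_csSup hGb (show D ∈ G from h)
    linarith
  unfold good at hup
  push Not at hup
  -- the number `N`
  obtain ⟨N, hN⟩ := exists_nat_gt (48 / β ^ 2)
  have hN0 : (0 : ℝ) < N := lt_of_le_of_lt (by positivity) hN
  have hNpos : 0 < N := by exact_mod_cast hN0
  have hN1 : 1 / (N : ℝ) ≤ β ^ 2 / 48 := by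
    rw [div_lt_iff₀ (by positivity)] at hN
    rw [div_le_div_iff₀ hN0 (by norm_num)]
    linarith
  obtain ⟨Z, hZ1, hZb, hZq, hZ2, S₁, HG⟩ := HG q hq hbq A0 N
  set lam : ℤ × ℕ → ℕ → ℤ := fun f v => Z f v ^ n with hlam
  -- the common multiple
  set d : ℕ := ∏ f ∈ F, ∏ v ∈ range N, ∏ v' ∈ range N,
    (if v = v' then 1 else (lam f v' - lam f v).natAbs) with hd
  have hdpos : 0 < d := by
    rw [hd]
    refine prod_pos fun f hf => prod_pos fun v hv => prod_pos fun v' hv' => ?_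
    rw [mem_range] at hv hv'
    split_ifs with h
    · norm_num
    · exact Int.natAbs_pos.mpr (sub_ne_zero.mpr (hZ2 f hf v' hv' v hv (Ne.symm h)))
  have hdvd : ∀ f ∈ F, ∀ v < N, ∀ v' < N, v ≠ v' → ∃ e, (lam f v' - lam f v) * e = (d : ℤ) := by
    intro f hf v hv v' hv' hvv
    have h2 : (lam f v' - lam f v).natAbs ∣ d := by
      rw [hd]
      refine dvd_trans ?_ (dvd_prod_of_mem _ hf)
      refine dvd_trans ?_ (dvd_prod_of_mem _ (mem_range.mpr hv))
      refine dvd_trans ?_ (dvd_prod_of_mem _ (mem_range.mpr hv'))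
      rw [if_neg hvv]
    obtain ⟨e, he⟩ := Int.natAbs_dvd.mp (Int.natCast_dvd_natCast.mpr h2)
    exact ⟨e, he.symm⟩
  choose! e he using hdvd
  -- the constant `C`
  set Bf : ℤ × ℕ → ℕ → ℕ → ℝ := fun f v v' =>
    nn (lam f v) + nn ((2 : ℤ) ^ f.2 * e f v v') + nn (lam f v * e f v v') with hBf
  have hBf0 : ∀ f v v', 0 ≤ Bf f v v' := fun f v v' =>
    add_nonneg (add_nonneg (nn_nonneg _) (nn_nonneg _)) (nn_nonneg _)
  set C : ℝ := 1 + d + (∑ f ∈ F, (2 : ℝ) ^ f.2) +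
    ∑ f ∈ F, ∑ v ∈ range N, ∑ v' ∈ range N, Bf f v v' with hC
  have hCsum : 0 ≤ ∑ f ∈ F, ∑ v ∈ range N, ∑ v' ∈ range N, Bf f v v' :=
    sum_nonneg fun _ _ => sum_nonneg fun _ _ => sum_nonneg fun _ _ => hBf0 _ _ _
  have hd0R : (0 : ℝ) ≤ d := by positivity
  have hA0R : (0 : ℝ) ≤ ∑ f ∈ F, (2 : ℝ) ^ f.2 := sum_nonneg fun _ _ => by positivity
  have hC1 : 1 ≤ C := by linarith
  have hCd : (d : ℝ) ≤ C := by linarith
  have hCA : ∀ f ∈ F, (2 : ℝ) ^ f.2 ≤ C := by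
    intro f hf
    have : (2 : ℝ) ^ f.2 ≤ ∑ f ∈ F, (2 : ℝ) ^ f.2 :=
      single_le_sum (f := fun f : ℤ × ℕ => (2 : ℝ) ^ f.2) (fun _ _ => by positivity) hf
    linarith
  have hCB : ∀ f ∈ F, ∀ v < N, ∀ v' < N, Bf f v v' ≤ C := by
    intro f hf v hv v' hv'
    have h1 : Bf f v v' ≤ ∑ v' ∈ range N, Bf f v v' :=
      single_le_sum (f := fun v' => Bf f v v') (fun _ _ => hBf0 _ _ _) (mem_range.mpr hv')
    have h2 : ∑ v' ∈ range N, Bf f v v' ≤ ∑ v ∈ range N, ∑ v' ∈ range N, Bf f v v' :=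
      single_le_sum (f := fun v => ∑ v' ∈ range N, Bf f v v')
        (fun _ _ => sum_nonneg fun _ _ => hBf0 _ _ _) (mem_range.mpr hv)
    have h3 : ∑ v ∈ range N, ∑ v' ∈ range N, Bf f v v' ≤
        ∑ f ∈ F, ∑ v ∈ range N, ∑ v' ∈ range N, Bf f v v' :=
      single_le_sum (f := fun f => ∑ v ∈ range N, ∑ v' ∈ range N, Bf f v v')
        (fun _ _ => sum_nonneg fun _ _ => sum_nonneg fun _ _ => hBf0 _ _ _) hf
    linarith
  -- the ratio `K`
  set ζ : ℝ := min (1 / 2) (min (β / 200) (β ^ 2 / 768)) with hζ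
  have hζ0 : 0 < ζ := by positivity
  have hζ1 : ζ ≤ 1 / 2 := min_le_left _ _
  have hζ2 : ζ ≤ β / 200 := (min_le_right _ _).trans (min_le_left _ _)
  have hζ3 : ζ ≤ β ^ 2 / 768 := (min_le_right _ _).trans (min_le_right _ _)
  obtain ⟨K, hK⟩ := exists_nat_gt (C / ζ)
  have hK0 : (0 : ℝ) < K := lt_of_le_of_lt (by positivity) hK
  have hKpos : 0 < K := by exact_mod_cast hK0
  have hKC : C / K ≤ ζ := by
    rw [div_lt_iff₀ hζ0] at hK
    rw [div_le_iff₀ hK0]
    linarith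
  have hqR : (0 : ℝ) < q := by exact_mod_cast hq
  set A' : ℝ := (|A0| + q) * (2 * K ^ 2) with hA'
  obtain ⟨S₂, hS₂⟩ := hup (q * d) (Nat.mul_pos hq hdpos) (dvd_mul_of_dvd_left hbq _) A'
  choose S₃' hS₃' using fun a : ℕ =>
    hup (q * 2 ^ a) (Nat.mul_pos hq (by positivity)) (dvd_mul_of_dvd_left hbq _) A'
  set S₃ : ℕ := ∑ f ∈ F, S₃' f.2 with hS₃def
  have hS₃ : ∀ f ∈ F, ∀ S ≥ S₃, ∀ (y : ℤ), loc J S (q * 2 ^ f.2) A' y →
      (av S fun s => ind V (y + ((q * 2 ^ f.2 : ℕ) : ℤ) * s)) < D := by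
    intro f hf S hS
    refine hS₃' f.2 S (le_trans ?_ hS)
    exact single_le_sum (f := fun f : ℤ × ℕ => S₃' f.2) (fun _ _ => Nat.zero_le _) hf
  obtain ⟨S, hS, y, hloc, hdens⟩ := hgood (S₁ + (S₂ + S₃ + 2) * K ^ 2 * 2)
  have hSge1 : S₁ ≤ S := le_trans (Nat.le_add_right _ _) hS
  have hSge2 : (S₂ + S₃ + 2) * K ^ 2 * 2 ≤ S := le_trans (Nat.le_add_left _ _) hS
  set W : ℕ := S / K with hW
  set L : ℕ := S / K ^ 2 with hL
  have hLge : S₂ + S₃ + 2 ≤ L := by
    rw [hL, Nat.le_div_iff_mul_le (by positivity)]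
    exact le_trans (Nat.le_mul_of_pos_right _ (by norm_num)) hSge2
  have hLW' : L = W / K := by
    rw [hL, hW, Nat.div_div_eq_div_mul, sq]
  have hLW : L ≤ W := by rw [hLW']; exact Nat.div_le_self _ _
  have hLpos : 0 < L := by omega
  have hWpos : 0 < W := by omega
  have hSpos : 0 < S := by
    have : W ≤ S := Nat.div_le_self _ _
    omega
  have hSR : (0 : ℝ) < S := by exact_mod_cast hSpos
  have hWR : (0 : ℝ) < W := by exact_mod_cast hWpos
  have hLR : (0 : ℝ) < L := by exact_mod_cast hLpos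
  have hLWR : (L : ℝ) ≤ W := by exact_mod_cast hLW
  have hWS : (W : ℝ) ≤ S / K := Nat.cast_div_le
  have hLW2 : (L : ℝ) ≤ W / K := by rw [hLW']; exact Nat.cast_div_le
  have hκ : C * W / S ≤ ζ := by
    refine le_trans ?_ hKC
    exact ratio_aux hSR hK0 (by linarith) hWS
  have hθ : (L : ℝ) / W ≤ ζ := by
    refine le_trans ?_ hKC
    have := ratio_aux hWR hK0 (C := C) (by linarith) hLW2
    refine le_trans ?_ this
    gcongr
    exact le_mul_of_one_le_left hLR.le hC1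
  have hCW : C * W ≤ S / 2 := by
    rw [div_le_iff₀ hSR] at hκ
    have := mul_le_mul_of_nonneg_right hζ1 hSR.le
    linarith
  have hSL : (S : ℝ) ≤ 2 * K ^ 2 * L := by
    have h1 : S < K ^ 2 * (L + 1) := by
      rw [hL]
      exact Nat.lt_mul_div_succ S (by positivity)
    have h2 : (S : ℝ) < K ^ 2 * (L + 1) := by exact_mod_cast h1
    have h3 : (1 : ℝ) ≤ L := by exact_mod_cast hLpos
    have h4 : (0 : ℝ) < K ^ 2 := by positivity
    have h5 := mul_le_mul_of_nonneg_left h3 h4.le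
    linarith
  obtain ⟨hl1, hl2, hl3⟩ := hloc
  have hJq : (J : ℤ) ∣ q := Int.natCast_dvd_natCast.mpr (dvd_trans (Dvd.intro_left _ rfl) hbq)
  -- location of the corners
  have hlocs : ∀ s ∈ Bx S, 10 * (S : ℝ) * q ≤ ((y + q * s : ℤ) : ℝ) ∧
      ((y + q * s : ℤ) : ℝ) ≤ (|A0| + q) * S ∧ (J : ℤ) ∣ y + q * s - 1 := by
    intro s hs
    obtain ⟨b1, b2⟩ := s_Bx hs
    have hA := le_abs_self A0
    have c1 : (0 : ℝ) ≤ q * s := by positivity
    have c2 : (q : ℝ) * s ≤ q * S := by gcongr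
    have c5 : A0 * S ≤ |A0| * S := by gcongr
    refine ⟨?_, ?_, ?_⟩
    · push_cast; linarith
    · push_cast
      linarith
    · have h5 : y + q * s - 1 = (y - 1) + q * s := by ring
      rw [h5]
      exact dvd_add hl3 (dvd_mul_of_dvd_left hJq _)
  set a : ℤ → ℝ := fun s => ind V (y + q * s) with ha
  have hA0nn : 0 ≤ |A0| + (q : ℝ) := by positivity
  have h1 : ∀ s ∈ Bx S, av L (fun u => a (s + (d : ℤ) * u)) ≤ D := by
    intro s hs
    obtain ⟨b1, b2, b3⟩ := hlocs s hs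
    have hLd : (L : ℝ) * d ≤ S / 2 := by
      have : (L : ℝ) * d ≤ W * C := by gcongr
      linarith
    have hAL : (|A0| + q) * S ≤ A' * L := by
      rw [hA']
      have := mul_le_mul_of_nonneg_left hSL hA0nn
      linarith
    have := hS₂ L (by omega) (y + q * s) ⟨?_, b2.trans hAL, b3⟩
    · refine le_of_eq_of_le (av_congr fun u _ => ?_) this.le
      rw [ha]
      simp only
      congr 1
      push_cast
      ring
    · have := lo_aux hLd hqR hSR.le b1
      push_cast at this ⊢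
      exact this
  obtain ⟨f, hf, hΓ⟩ := HG S hSge1 y hl1 hl2 hl3 T hFT
  have h2 : ∀ s ∈ Bx S, av W (fun w => a (s + (2 : ℤ) ^ f.2 * w)) ≤ D := by
    intro s hs
    obtain ⟨b1, b2, b3⟩ := hlocs s hs
    have hLd : (W : ℝ) * (2 : ℝ) ^ f.2 ≤ S / 2 := by
      have : (W : ℝ) * (2 : ℝ) ^ f.2 ≤ W * C := mul_le_mul_of_nonneg_left (hCA f hf) hWR.le
      linarith
    have hSW : (S : ℝ) ≤ 2 * K ^ 2 * W := by
      refine hSL.trans ?_
      gcongr
    have hAL : (|A0| + q) * S ≤ A' * W := by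
      rw [hA']
      have := mul_le_mul_of_nonneg_left hSW hA0nn
      linarith
    have := hS₃ f hf W (by omega) (y + q * s) ⟨?_, b2.trans hAL, b3⟩
    · refine le_of_eq_of_le (av_congr fun u _ => ?_) this.le
      rw [ha]
      simp only
      congr 1
      push_cast
      ring
    · have := lo_aux hLd hqR hSR.le b1
      push_cast at this ⊢
      exact this
  -- the linear form
  obtain ⟨q', hq'⟩ : b ∣ q := dvd_trans (Dvd.intro _ rfl) hbq
  obtain ⟨cf, hcf⟩ := hZb f hf 0 hNpos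
  have hbZ : (b : ℤ) ≠ 0 := by exact_mod_cast hb.ne'
  have htau : ∀ v, ∃ τ : ℤ, v < N → lam f v - lam f 0 = q * τ := by
    intro v
    by_cases hv : v < N
    · obtain ⟨τ, hτ⟩ := hZq f hf v hv 0 hNpos
      exact ⟨τ, fun _ => hτ⟩
    · exact ⟨0, fun h => absurd h hv⟩
  choose τ hτ using htau
  set g : ℤ → ℝ := fun x => ind (T f) (cf * y + q' * x) with hg
  have hpt : ∀ v < N, ∀ s t : ℤ, ((lam f v - 2 ^ f.2) * y + q * (lam f v * s - 2 ^ f.2 * t)) / b =
      cf * y + q' * (lam f v * s + τ v * y - 2 ^ f.2 * t) := by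
    intro v hv s t
    apply Int.ediv_eq_of_eq_mul_right hbZ
    have h3 := hτ v hv
    have h4 : (q : ℤ) = b * q' := by rw [hq']; push_cast; ring
    have h5 : lam f 0 - 2 ^ f.2 = b * cf := hcf
    linear_combination y * h3 + y * h5 + (lam f v * s + τ v * y - 2 ^ f.2 * t) * h4
  have hmain := main_ineq (S := S) (W := W) (L := L) (N := N) hSpos hWpos hLpos hNpos hLW
    (a := a) (g := g) (fun x => ind_bd _ _) (fun x => ind_bd _ _) (lam f)
    (fun v => τ v * y) (e f) ((2 : ℤ) ^ f.2) (d : ℤ) C D (2 * ε) γ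
    (fun v hv v' hv' h => he f hf v hv v' hv' h)
    hC1 (fun v hv => ?_) (fun v hv v' hv' => ?_) (fun v hv v' hv' => ?_) ?_ ?_ hD0
    (by linarith) (by linarith) h1 h2 (by linarith) (fun v hv => ?_) (fun v hv => ?_)
  · -- the final contradiction
    exact final_aux2 hβ0 hN1 (hκ.trans hζ3) (hκ.trans hζ2) (hθ.trans hζ3) hδ0 hβ hγ hDk hε2 hmain
  · have := hCB f hf v hv v hv
    rw [hBf] at this
    simp only at this
    linarith [nn_nonneg ((2 : ℤ) ^ f.2 * e f v v), nn_nonneg (lam f v * e f v v)]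
  · have := hCB f hf v hv v' hv'
    rw [hBf] at this
    simp only at this
    linarith [nn_nonneg (lam f v), nn_nonneg (lam f v * e f v v')]
  · have := hCB f hf v hv v' hv'
    rw [hBf] at this
    simp only at this
    linarith [nn_nonneg (lam f v), nn_nonneg ((2 : ℤ) ^ f.2 * e f v v')]
  · unfold nn
    push_cast
    rw [abs_of_nonneg (by positivity)]
    exact hCA f hf
  · unfold nn
    push_cast
    rw [abs_of_nonneg hd0R]
    exact hCd
  · refine (hΓ v hv).trans_eq (E2_congr fun s _ t _ => ?_)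
    rw [hg]
    simp only
    rw [← hpt v hv]
  · rw [← E2_const hSpos 0]
    refine E2_congr fun s _ t _ => ?_
    by_contra hne0
    have m1 : y + q * s ∈ V := by
      by_contra h
      apply hne0
      rw [ha]
      simp [ind, h]
    have m2 : y + q * t ∈ V := by
      by_contra h
      apply hne0
      rw [ha]
      simp [ind, h]
    have m3 : cf * y + q' * (lam f v * s + τ v * y - 2 ^ f.2 * t) ∈ T f := by
      by_contra h
      apply hne0
      rw [hg]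
      simp only [ind]
      rw [if_neg h]
      ring
    refine hno f hf _ m2 _ m1 _ m3 (Z f v) (hZ1 f hf v hv) ?_
    have h3 := hτ v hv
    have h4 : (q : ℤ) = b * q' := by rw [hq']; push_cast; ring
    have h5 : lam f 0 - 2 ^ f.2 = b * cf := hcf
    have h6 : Z f v ^ n = lam f v := rfl
    rw [h6]
    linear_combination (-y) * h5 + y * h3 * (-1) - (lam f v * s + τ v * y - 2 ^ f.2 * t) * h4
end Pool.Agent.H38.PZ
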