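import Pool.Agent.H38.PZ.Avg

/-! Counting the points `(λ W - A X) / b` in a set. -/

open Finset

namespace Pool.Agent.H38.PZ

lemma sol {A lam : ℤ} (hl : 0 < lam) (hco : IsCoprime A lam) (m : ℤ) :
    ∃ s t : ℤ, lam * s - A * t = m ∧ 0 ≤ t ∧ t < lam := by
  obtain ⟨u, v, huv⟩ := hco
  refine ⟨m * v + A * (-((-(m * u)) / lam)) + 0, (-(m * u)) % lam, ?_, Int.emod_nonneg _ hl.ne',
    Int.emod_lt_of_pos _ hl⟩
  have h := Int.emod_add_mul_ediv (-(m * u)) lam
  have h2 : (-(m * u)) % lam = -(m * u) - lam * ((-(m * u)) / lam) := by linarith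
  rw [h2]
  linear_combination m * huv

theorem count {T : Set ℤ} {A b q y f lam : ℤ} {S B : ℕ} (hS : 0 < S) (hA : 0 < A) (hb : b ≠ 0)
    (hq : q ≠ 0) (hf : f ≠ 0) (hl : 0 < lam) (hco : IsCoprime A lam) (Gd : Finset ℤ) (m : ℤ → ℤ)
    (hm : ∀ h ∈ Gd, q * m h = b * f * h - (lam - A) * y) (hm1 : ∀ h ∈ Gd, lam * S ≤ 4 * m h)
    (hm2 : ∀ h ∈ Gd, 4 * m h ≤ 3 * lam * S) (h4A : 4 * A ≤ lam) (hB : 4 * lam * B ≤ S)
    (hlS : 16 * lam ≤ S) (hT : ∀ h ∈ Gd, f * h ∈ T) :
    ((Gd.card * B : ℕ) : ℝ) ≤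
      E2 S (fun s t => ind T (((lam - A) * y + q * (lam * s - A * t)) / b)) * (S : ℝ) ^ 2 := by
  classical
  have hS' : (S : ℝ) ≠ 0 := by exact_mod_cast hS.ne'
  have h1 : E2 S (fun s t => ind T (((lam - A) * y + q * (lam * s - A * t)) / b)) * (S : ℝ) ^ 2
      = ∑ p ∈ Bx S ×ˢ Bx S, ind T (((lam - A) * y + q * (lam * p.1 - A * p.2)) / b) := by
    unfold E2
    rw [av_def]
    simp only [av_def]
    rw [Finset.sum_product, ← Finset.sum_div]
    field_simp
  rw [h1]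
  choose s0 t0 hst ht0 ht1 using fun h => sol hl hco (m h)
  let e : ℤ × ℕ → ℤ × ℤ := fun p => (s0 p.1 + A * p.2, t0 p.1 + lam * p.2)
  have hval : ∀ h ∈ Gd, ∀ j : ℕ, ((lam - A) * y + q * (lam * (s0 h + A * j) -
      A * (t0 h + lam * j))) / b = f * h := by
    intro h hh j
    apply Int.ediv_eq_of_eq_mul_right hb
    linear_combination q * hst h + hm h hh
  have hinj : Set.InjOn e (Gd ×ˢ range B : Finset (ℤ × ℕ)) := by
    rintro ⟨h, j⟩ hp ⟨h', j'⟩ hp' heq
    simp only [e, Prod.mk.injEq] at heq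
    obtain ⟨ha, hb'⟩ := heq
    simp only [coe_product, Set.mem_prod, mem_coe, mem_range] at hp hp'
    have e1 := hval h hp.1 j
    have e2 := hval h' hp'.1 j'
    rw [ha, hb', e2] at e1
    have e3 : h' = h := mul_left_cancel₀ hf e1
    subst e3
    have e4 : A * (j : ℤ) = A * j' := by linarith
    have e5 := mul_left_cancel₀ hA.ne' e4
    have e6 : j = j' := by exact_mod_cast e5
    rw [e6]
  have h2 : ((Gd.card * B : ℕ) : ℝ) = ((Gd ×ˢ range B).image e).card := by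
    rw [Finset.card_image_of_injOn hinj, Finset.card_product, card_range]
  rw [h2, Finset.card_eq_sum_ones, Nat.cast_sum]
  refine le_trans (Finset.sum_le_sum (g := fun p : ℤ × ℤ =>
    ind T (((lam - A) * y + q * (lam * p.1 - A * p.2)) / b)) ?_)
    (Finset.sum_le_sum_of_subset_of_nonneg ?_ fun p _ _ => ?_)
  · intro p hp
    obtain ⟨⟨h, j⟩, hgj, rfl⟩ := Finset.mem_image.1 hp
    rw [Finset.mem_product] at hgj
    dsimp only [e]
    rw [hval h hgj.1 j]
    unfold ind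
    rw [if_pos (hT h hgj.1)]
    simp
  · intro p hp
    obtain ⟨⟨h, j⟩, hgj, rfl⟩ := Finset.mem_image.1 hp
    rw [Finset.mem_product] at hgj ⊢
    obtain ⟨hh, hj⟩ := hgj
    rw [mem_range] at hj
    have c1 := hm1 h hh
    have c2 := hm2 h hh
    have c3 := hst h
    have c4 := ht0 h
    have c5 := ht1 h
    have hj' : (j : ℤ) + 1 ≤ B := by exact_mod_cast hj
    have hj0 : (0 : ℤ) ≤ j := by positivity
    dsimp only [e]
    rw [mem_Bx, mem_Bx]
    have hAt : 0 ≤ A * t0 h := mul_nonneg hA.le c4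
    have hAt2 : A * t0 h ≤ A * lam := mul_le_mul_of_nonneg_left c5.le hA.le
    have hAj : 0 ≤ A * (j : ℤ) := mul_nonneg hA.le hj0
    have hlj : 0 ≤ lam * (j : ℤ) := mul_nonneg hl.le hj0
    have hljB : lam * ((j : ℤ) + 1) ≤ lam * B := mul_le_mul_of_nonneg_left hj' hl.le
    have hAjl : 4 * (A * j) ≤ lam * j := by nlinarith
    have hSp : (0 : ℤ) < S := by exact_mod_cast hS
    -- bounds for s0
    have hs1 : 0 ≤ s0 h := by
      by_contra hneg
      have hneg' : s0 h ≤ -1 := by omega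
      have : lam * s0 h ≤ lam * (-1) := mul_le_mul_of_nonneg_left hneg' hl.le
      have h5 : 0 < lam * S := mul_pos hl hSp
      linarith
    have hs2 : 4 * s0 h ≤ 3 * S + 4 * A := by
      by_contra hneg
      push Not at hneg
      have : lam * (3 * S + 4 * A) < lam * (4 * s0 h) := mul_lt_mul_of_pos_left hneg hl
      linarith
    refine ⟨⟨?_, ?_⟩, ?_, ?_⟩
    · linarith
    · linarith
    · linarith
    · linarith
  · unfold ind
    split_ifs <;> norm_num

end Pool.Agent.H38.PZ
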