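import Mathlib

/-! Definitions for the partition regularity of `A x + b y = w z ^ n` over the positive integers
(MP_a5a405_co; e.g. `16 x + 17 y = w z ^ 8`), and the statements of the separate steps. -/

open Finset

namespace Pool.Agent.H38.PZ

/-- positive integers `≡ 1 (mod J)` -/
def P1 (J : ℕ) (x : ℤ) : Prop := 0 < x ∧ (J : ℤ) ∣ x - 1

/-- `T` is multiplicatively syndetic in `{x > 0 : x ≡ 1 (mod J)}` -/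
def Synd (J : ℕ) (T : Set ℤ) : Prop :=
  (∀ x ∈ T, P1 J x) ∧ ∃ F : Finset ℤ, (∀ f ∈ F, P1 J f) ∧ ∀ h, P1 J h → ∃ f ∈ F, f * h ∈ T

/-- STEP 1 (analytic core). -/
def S_core (n A b J : ℕ) : Prop := ∀ T : Set ℤ, Synd J T →
  ∃ X ∈ T, ∃ Y ∈ T, ∃ W ∈ T, ∃ ρ : ℤ, 0 < ρ ∧ (A : ℤ) * X + b * Y = W * ρ ^ n

/-- STEP 3 (partition regularity over the positive integers). -/
def S_full (n A b : ℕ) : Prop := ∀ (κ : Type) [Finite κ] (c : ℤ → κ), ∃ w x y z : ℤ,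
  0 < w ∧ 0 < x ∧ 0 < y ∧ 0 < z ∧ c w = c x ∧ c w = c y ∧ c w = c z ∧
    (A : ℤ) * x + b * y = w * z ^ n

/-- average over `{0, …, S - 1}` -/
noncomputable def av (S : ℕ) (Φ : ℤ → ℝ) : ℝ := (∑ s ∈ range S, Φ (s : ℤ)) / S

/-- double average -/
noncomputable def E2 (S : ℕ) (Φ : ℤ → ℤ → ℝ) : ℝ := av S (fun s => av S (fun t => Φ s t))

open Classical in
/-- indicator function of `T` -/
noncomputable def ind (T : Set ℤ) (x : ℤ) : ℝ := if x ∈ T then 1 else 0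

/-- STEP 0 (local solvability). -/
def S_zeta (n A b J : ℕ) : Prop := ∀ (j o : ℕ), Odd o → ∀ f : ℤ, (J : ℤ) ∣ f - 1 →
  ∃ ζ : ℤ, (o : ℤ) ∣ ζ ^ n - A ∧ (2 : ℤ) ^ j ∣ ζ ^ n - (A + b * f)

/-- STEP 1a (the lower bound for the number of points `(λ W - A X) / b` in `T`). -/
def S_gamma (n A b J : ℕ) : Prop := ∀ F : Finset ℤ, (∀ f ∈ F, P1 J f) → ∃ γ : ℝ, 0 < γ ∧
  ∀ q : ℕ, 0 < q → b * J ∣ q → ∀ (A' : ℝ) (N : ℕ), ∃ Z : ℤ → ℕ → ℤ,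
    (∀ f ∈ F, ∀ v < N, 0 < Z f v) ∧
    (∀ f ∈ F, ∀ v < N, (b : ℤ) ∣ Z f v ^ n - A) ∧
    (∀ f ∈ F, ∀ v < N, ∀ v' < N, (q : ℤ) ∣ Z f v ^ n - Z f v' ^ n) ∧
    (∀ f ∈ F, ∀ v < N, ∀ v' < N, v ≠ v' → Z f v ^ n ≠ Z f v' ^ n) ∧
    ∃ S₀ : ℕ, ∀ S ≥ S₀, ∀ y : ℤ, 10 * (S : ℝ) * q ≤ y → (y : ℝ) ≤ A' * S → (J : ℤ) ∣ y - 1 →
      ∀ T : Set ℤ, (∀ h, P1 J h → ∃ f ∈ F, f * h ∈ T) →
        ∃ f ∈ F, ∀ v < N, γ ≤ E2 S (fun s t =>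
          ind T (((Z f v ^ n - A) * y + q * (Z f v ^ n * s - A * t)) / b))

end Pool.Agent.H38.PZ
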